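import Pool.Agent.H444.MH.Det3

set_option autoImplicit false

namespace Pool.Agent.H444.MH

open Filter Topology MeasureTheory Complex Set
open Pool.Agent.Q97.UM
open scoped ComplexConjugate

noncomputable section

/-- the bound for the real part of the exponent -/
def GG (δ C3 : ℝ) (Y M : ℕ) (T t : ℝ) : ℝ :=
  1 / (Y : ℝ) * (|Real.log ‖zt (t + Y / Real.log T)‖ - Real.log ‖zt t‖| +
    (C3 + 1) * ((SS δ T t + SL T t) + (SS δ T (t + Y / Real.log T) + SL T (t + Y / Real.log T))) +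
    CB Y M T t + (Y : ℝ) ^ 2 * far M T t + 1)

lemma SL_nn (T t : ℝ) : 0 ≤ SL T t := by
  unfold SL
  exact Finset.sum_nonneg fun s _ => mul_nonneg (Nat.cast_nonneg _) (le_max_left _ _)

lemma far_nn (M T t : ℝ) : 0 ≤ far M T t := by
  unfold far
  exact Finset.sum_nonneg fun s _ => by positivity

/-- the factorisation with control of the exponent -/
theorem detG (hLEX : S_LEX) (hCMB : S_CMB) : ∃ C : ℝ, 0 ≤ C ∧ ∀ (δ C3 : ℝ), 0 ≤ C3 → (∀ y v : ℝ, (y ≠ 0 ∨ v ≠ 0) →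
    |Real.log (Real.sqrt (y ^ 2 + v ^ 2)) - ell y| ≤ C3 * (Real.exp (2 * δ * |v|) / (1 + |y|) ^ 2) +
      max 0 (Real.log (1 / Real.sqrt (y ^ 2 + v ^ 2)))) → ∀ Y M : ℕ, 1 ≤ Y → 2 * Y + 1 ≤ M →
    ∀ᶠ T : ℝ in atTop, ∀ t : ℝ, T ≤ t → t ≤ 2 * T → zt t ≠ 0 → zt (t + Y / Real.log T) ≠ 0 →
    ∃ A : ℂ, |A.im + 1 / 2| ≤ C / Real.log T ∧ |A.re| ≤ GG δ C3 Y M T t ∧
      ∀ u : ℂ, 2 * ‖u‖ ≤ M → ∃ E : ℂ, ‖E‖ ≤ ‖u‖ ^ 2 * far M T t + C * ‖u‖ ^ 2 / Real.log T ∧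
        riemannZeta (1 / 2 + t * I + I * u / (Real.log T : ℂ)) = zt t * Pn T M t u * cexp (A * u + E) := by
  obtain ⟨C, hC0, h⟩ := det1 hLEX
  refine ⟨C, hC0, fun δ C3 hC3 hcpl Y M hY hM => ?_⟩
  have ev1 := Real.tendsto_log_atTop.eventually_ge_atTop ((M : ℝ) * 50)
  have ev2 := Real.tendsto_log_atTop.eventually_ge_atTop (C * (Y : ℝ) ^ 2)
  filter_upwards [h, log_ev, ev1, ev2] with T hT hl hMT hCT t ht1 ht2 hz hzY
  obtain ⟨hT16, hL, hLT⟩ := hl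
  have hL0 : 0 < Real.log T := by linarith
  have hY1 : (1 : ℝ) ≤ Y := by exact_mod_cast hY
  have hM1 : 2 * (Y : ℝ) + 1 ≤ M := by exact_mod_cast hM
  obtain ⟨A, hA1, hA2⟩ := hT t ht1 ht2 hz M (by linarith) (by rw [le_div_iff₀ (by norm_num)]; linarith)
  refine ⟨A, hA1, ?_, hA2⟩
  obtain ⟨E, hE1, hE2⟩ := hA2 (Y : ℂ) (by rw [Complex.norm_natCast]; linarith)
  rw [Complex.norm_natCast] at hE1
  have hpt : (1 / 2 + t * I + I * (Y : ℂ) / (Real.log T : ℂ) : ℂ) = 1 / 2 + ((t + Y / Real.log T : ℝ) : ℂ) * I := by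
    push_cast
    ring
  rw [hpt] at hE2
  have hE3 : zt (t + Y / Real.log T) = zt t * Pn T M t Y * cexp (A * Y + E) := hE2
  obtain ⟨hP1, hP2⟩ := log_Pn hT16 hL0 (M := M) (Y := (Y : ℝ)) hz hzY
  simp only [Complex.ofReal_natCast] at hP1 hP2
  have hlog : Real.log ‖zt (t + Y / Real.log T)‖ = Real.log ‖zt t‖ + Real.log ‖Pn T M t Y‖ + (A.re * Y + E.re) := by
    rw [hE3, norm_mul, norm_mul, Real.log_mul (mul_ne_zero (norm_ne_zero_iff.2 hz) (norm_ne_zero_iff.2 hP1))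
      (norm_ne_zero_iff.2 (Complex.exp_ne_zero _)), Real.log_mul (norm_ne_zero_iff.2 hz) (norm_ne_zero_iff.2 hP1),
      Complex.norm_exp, Real.log_exp]
    simp
  have d3 := det3 hC3 hcpl hT16 hL0 (M := M) (Y := (Y : ℝ)) hz hzY
  have d4 := cmb_nr hCMB hL0 t hY hM
  simp only [Complex.ofReal_natCast] at d3
  rw [← hP2] at d3
  have hEre : |E.re| ≤ (Y : ℝ) ^ 2 * far M T t + 1 := by
    refine (Complex.abs_re_le_norm E).trans (hE1.trans ?_)
    have : C * (Y : ℝ) ^ 2 / Real.log T ≤ 1 := (div_le_one hL0).2 hCT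
    linarith
  have key : (Y : ℝ) * |A.re| ≤ |Real.log ‖zt (t + Y / Real.log T)‖ - Real.log ‖zt t‖| +
    (C3 + 1) * ((SS δ T t + SL T t) + (SS δ T (t + Y / Real.log T) + SL T (t + Y / Real.log T))) +
    CB Y M T t + (Y : ℝ) ^ 2 * far M T t + 1 := by
    have e : (Y : ℝ) * A.re = (Real.log ‖zt (t + Y / Real.log T)‖ - Real.log ‖zt t‖) - Real.log ‖Pn T M t Y‖ - E.re := by
      rw [hlog]; ring
    have e1 : (Y : ℝ) * |A.re| = |(Y : ℝ) * A.re| := by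
      rw [abs_mul, abs_of_nonneg (by positivity : (0 : ℝ) ≤ Y)]
    have s1 := SS_nn δ T t
    have s2 := SS_nn δ T (t + Y / Real.log T)
    have s3 := SL_nn T t
    have s4 := SL_nn T (t + Y / Real.log T)
    have hs : C3 * (SS δ T t + SS δ T (t + Y / Real.log T)) + (SL T t + SL T (t + Y / Real.log T)) ≤
        (C3 + 1) * ((SS δ T t + SL T t) + (SS δ T (t + Y / Real.log T) + SL T (t + Y / Real.log T))) := by
      nlinarith [mul_nonneg hC3 s1, mul_nonneg hC3 s2, mul_nonneg hC3 s3, mul_nonneg hC3 s4]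
    have b1 := abs_le.1 (d3.trans hs)
    have b2 := abs_le.1 d4
    have b3 := abs_le.1 hEre
    have b4 := abs_le.1 (le_refl |Real.log ‖zt (t + Y / Real.log T)‖ - Real.log ‖zt t‖|)
    rw [e1, e, abs_le]
    constructor <;> linarith [b1.1, b1.2, b2.1, b2.2, b3.1, b3.2, b4.1, b4.2]
  unfold GG
  rw [one_div, inv_mul_eq_div, le_div_iff₀ (by positivity), mul_comm]
  exact key

lemma sum_sqrt' (n : ℕ) : ∑ j ∈ Finset.Ico 1 (n + 1), 1 / Real.sqrt j ≤ 2 * Real.sqrt n := by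
  induction n with
  | zero => simp
  | succ n ih =>
    rw [Finset.sum_Ico_succ_top (by omega)]
    have h0 : (0 : ℝ) ≤ n := Nat.cast_nonneg n
    have hs : 0 < Real.sqrt ((n + 1 : ℕ) : ℝ) := Real.sqrt_pos.2 (by positivity)
    have hs' : 0 ≤ Real.sqrt (n : ℝ) := Real.sqrt_nonneg _
    have e1 : Real.sqrt ((n + 1 : ℕ) : ℝ) ^ 2 = n + 1 := by rw [Real.sq_sqrt (by positivity)]; push_cast; ring
    have e2 : Real.sqrt (n : ℝ) ^ 2 = n := Real.sq_sqrt h0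
    have h1 : 1 / Real.sqrt ((n + 1 : ℕ) : ℝ) ≤ 2 * Real.sqrt ((n + 1 : ℕ) : ℝ) - 2 * Real.sqrt (n : ℝ) := by
      rw [div_le_iff₀ hs]
      nlinarith [sq_nonneg (Real.sqrt ((n + 1 : ℕ) : ℝ) - Real.sqrt (n : ℝ))]
    linarith

lemma sum_sqrt (M : ℕ) : ∑ j ∈ Finset.Ico 1 M, 1 / Real.sqrt j ≤ 2 * Real.sqrt M := by
  rcases Nat.eq_zero_or_pos M with h | h
  · subst h; simp
  · obtain ⟨n, rfl⟩ : ∃ n, M = n + 1 := ⟨M - 1, by omega⟩
    refine (sum_sqrt' n).trans ?_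
    have : Real.sqrt (n : ℝ) ≤ Real.sqrt ((n + 1 : ℕ) : ℝ) := Real.sqrt_le_sqrt (by push_cast; linarith)
    linarith

/-- mean of the counting bound -/
theorem CB_rel {C : ℝ} (hC : 1 ≤ C) (h : ∀ H : ℝ, 1 ≤ H → RelW (fun T t => |cnt T H t - H / Real.pi|) (C * Real.sqrt H))
    {Y M : ℕ} (hY : 1 ≤ Y) (hM : 2 * Y + 1 ≤ M) :
    RelN (CB Y M) (19 * C * Real.sqrt M + 4 * (Y : ℝ) ^ 2 / M) := by
  have hD : ∀ j : ℕ, 1 ≤ j → RelN (fun T t => Dv T j t) (C * Real.sqrt j) := fun j hj =>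
    (h j (by exact_mod_cast hj)).toN
  have hDY : ∀ j : ℕ, 1 ≤ j → RelN (fun T t => Dv T j (t + Y / Real.log T)) (C * Real.sqrt j) := fun j hj =>
    (h j (by exact_mod_cast hj)).shift Y
  have hY1 : (1 : ℝ) ≤ Y := by exact_mod_cast hY
  have hM1 : 2 * (Y : ℝ) + 1 ≤ M := by exact_mod_cast hM
  have hM0 : (0 : ℝ) < M := by linarith
  have hpi : (3 : ℝ) < Real.pi := Real.pi_gt_three
  have hpi0 : (0 : ℝ) < Real.pi := by linarith
  have r1 := ((hD (M + Y) (by omega)).add (hD (M - Y - 1) (by omega))).add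
    (RelN.const (c := (2 * (Y : ℝ) + 1) / Real.pi) (by positivity))
  have r2 := r1.smul (c := 2 * (Y : ℝ) / M) (by positivity)
  have r3 : ∀ j ∈ Finset.Ico 1 M, RelN (fun T t => (1 / (j : ℝ)) * (Dv T j t + Dv T (j + 1 : ℕ) t + Dv T j (t + Y / Real.log T) +
      Dv T (j + 1 : ℕ) (t + Y / Real.log T) + 2 / Real.pi))
      ((1 / (j : ℝ)) * (C * Real.sqrt j + C * Real.sqrt (j + 1 : ℕ) + C * Real.sqrt j + C * Real.sqrt (j + 1 : ℕ) + 2 * (2 / Real.pi))) := by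
    intro j hj
    have hj1 := (Finset.mem_Ico.1 hj).1
    exact (((((hD j hj1).add (hD (j + 1) (by omega))).add (hDY j hj1)).add (hDY (j + 1) (by omega))).add
      (RelN.const (c := 2 / Real.pi) (by positivity))).smul (by positivity)
  have r4 := r2.add (RelN.sum (Finset.Ico 1 M) r3)
  have hfun : (CB Y M) = fun T t => 2 * (Y : ℝ) / M * (Dv T (M + Y : ℕ) t + Dv T (M - Y - 1 : ℕ) t + (2 * Y + 1) / Real.pi) +
    ∑ j ∈ Finset.Ico 1 M, (1 / (j : ℝ)) * (Dv T j t + Dv T (j + 1 : ℕ) t + Dv T j (t + Y / Real.log T) +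
      Dv T (j + 1 : ℕ) (t + Y / Real.log T) + 2 / Real.pi) := rfl
  rw [hfun]
  refine r4.mono ?_
  set S : ℝ := Real.sqrt M with hS
  have hSn : 0 ≤ S := Real.sqrt_nonneg _
  have p1 : Real.sqrt ((M + Y : ℕ) : ℝ) ≤ 2 * S := by
    rw [hS, Real.sqrt_le_left (by positivity), mul_pow, Real.sq_sqrt hM0.le]
    push_cast
    linarith
  have p2 : Real.sqrt ((M - Y - 1 : ℕ) : ℝ) ≤ S := by
    rw [hS]
    apply Real.sqrt_le_sqrt
    have : ((M - Y - 1 : ℕ) : ℝ) ≤ (M : ℕ) := by exact_mod_cast (by omega : M - Y - 1 ≤ M)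
    exact this
  have p3 : 2 * ((2 * (Y : ℝ) + 1) / Real.pi) ≤ 2 * Y := by
    rw [← mul_div_assoc, div_le_iff₀ hpi0]
    nlinarith
  have p4 : 2 * (Y : ℝ) / M ≤ 1 := by
    rw [div_le_one hM0]; linarith
  have p4' : 0 ≤ 2 * (Y : ℝ) / M := by positivity
  have q1 : 2 * (Y : ℝ) / M * (C * Real.sqrt ((M + Y : ℕ) : ℝ) + C * Real.sqrt ((M - Y - 1 : ℕ) : ℝ) + 2 * ((2 * (Y : ℝ) + 1) / Real.pi)) ≤
      3 * C * S + 4 * (Y : ℝ) ^ 2 / M := by
    have a1 : C * Real.sqrt ((M + Y : ℕ) : ℝ) + C * Real.sqrt ((M - Y - 1 : ℕ) : ℝ) ≤ 3 * C * S := by nlinarith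
    calc 2 * (Y : ℝ) / M * (C * Real.sqrt ((M + Y : ℕ) : ℝ) + C * Real.sqrt ((M - Y - 1 : ℕ) : ℝ) + 2 * ((2 * (Y : ℝ) + 1) / Real.pi))
        ≤ 2 * (Y : ℝ) / M * (3 * C * S + 2 * Y) := mul_le_mul_of_nonneg_left (by linarith) p4'
      _ = 2 * (Y : ℝ) / M * (3 * C * S) + 4 * (Y : ℝ) ^ 2 / M := by ring
      _ ≤ 1 * (3 * C * S) + 4 * (Y : ℝ) ^ 2 / M := by gcongr
      _ = _ := by ring
  have q2 : ∑ j ∈ Finset.Ico 1 M, (1 / (j : ℝ)) * (C * Real.sqrt j + C * Real.sqrt (j + 1 : ℕ) + C * Real.sqrt j + C * Real.sqrt (j + 1 : ℕ) + 2 * (2 / Real.pi)) ≤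
      16 * C * S := by
    calc ∑ j ∈ Finset.Ico 1 M, (1 / (j : ℝ)) * (C * Real.sqrt j + C * Real.sqrt (j + 1 : ℕ) + C * Real.sqrt j + C * Real.sqrt (j + 1 : ℕ) + 2 * (2 / Real.pi))
        ≤ ∑ j ∈ Finset.Ico 1 M, 8 * C * (1 / Real.sqrt j) := by
          refine Finset.sum_le_sum fun j hj => ?_
          have hj1 : (1 : ℝ) ≤ j := by exact_mod_cast (Finset.mem_Ico.1 hj).1
          have hsj : 1 ≤ Real.sqrt j := Real.one_le_sqrt.2 hj1
          have hsj1 : Real.sqrt ((j + 1 : ℕ) : ℝ) ≤ 3 / 2 * Real.sqrt j := by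
            rw [Real.sqrt_le_left (by positivity), mul_pow, Real.sq_sqrt (by linarith)]
            push_cast
            linarith
          have h4 : 2 * (2 / Real.pi) ≤ 3 / 2 := by
            rw [← mul_div_assoc, div_le_iff₀ hpi0]
            linarith
          have h5 : C * Real.sqrt j + C * Real.sqrt (j + 1 : ℕ) + C * Real.sqrt j + C * Real.sqrt (j + 1 : ℕ) + 2 * (2 / Real.pi) ≤ 8 * C * Real.sqrt j := by
            nlinarith
          calc (1 / (j : ℝ)) * (C * Real.sqrt j + C * Real.sqrt (j + 1 : ℕ) + C * Real.sqrt j + C * Real.sqrt (j + 1 : ℕ) + 2 * (2 / Real.pi))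
              ≤ (1 / (j : ℝ)) * (8 * C * Real.sqrt j) := mul_le_mul_of_nonneg_left h5 (by positivity)
            _ = 8 * C * (1 / Real.sqrt j) := by
                have : (j : ℝ) = Real.sqrt j * Real.sqrt j := (Real.mul_self_sqrt (by linarith)).symm
                have hne : Real.sqrt j ≠ 0 := by positivity
                rw [show (1 / (j : ℝ)) = 1 / (Real.sqrt j * Real.sqrt j) by rw [← this]]
                field_simp
      _ = 8 * C * ∑ j ∈ Finset.Ico 1 M, (1 / Real.sqrt j) := by rw [Finset.mul_sum]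
      _ ≤ 8 * C * (2 * S) := mul_le_mul_of_nonneg_left (sum_sqrt M) (by linarith)
      _ = 16 * C * S := by ring
  linarith

end

end Pool.Agent.H444.MH
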