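import Pool.Agent.H444.MH.Asm

set_option autoImplicit false

namespace Pool.Agent.H444.MH

open Filter Topology MeasureTheory Complex Set
open Pool.Agent.Q97.UM
open scoped ComplexConjugate

noncomputable section

/-- mean of `GG`, explicit -/
theorem GG_rel1 {δ C3 C C1 CF C' Ci δi : ℝ} (hC : 1 ≤ C) (hC3 : 0 ≤ C3)
    (hLLN : ∀ H : ℝ, 1 ≤ H → RelW (fun T t => |cnt T H t - H / Real.pi|) (C * Real.sqrt H))
    (hFAR : ∀ M : ℝ, 1 ≤ M → RelW (far M) (CF / M))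
    (hONE : RelW (fun T t => SS δ T t + SL T t) C1)
    (hINC : ∀ Y : ℝ, RelN (fun T t => |Real.log ‖zt (t + Y / Real.log T)‖ - Real.log ‖zt t‖|) (C' + Ci * δi * |Y|))
    {Y M : ℕ} (hY : 1 ≤ Y) (hM : 2 * Y + 1 ≤ M) :
    RelN (GG δ C3 Y M) (1 / (Y : ℝ) * (C' + Ci * δi * Y + (C3 + 1) * (C1 + C1) + (19 * C * Real.sqrt M + 4 * (Y : ℝ) ^ 2 / M) +
      (Y : ℝ) ^ 2 * (CF / M) + 2 * 1)) := by
  have hY1 : (1 : ℝ) ≤ Y := by exact_mod_cast hY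
  have hM1 : (1 : ℝ) ≤ M := by exact_mod_cast (by omega : 1 ≤ M)
  have a1 := hINC Y
  rw [abs_of_nonneg (by positivity : (0 : ℝ) ≤ Y)] at a1
  have a2 := (hONE.toN.add (hONE.shift Y)).smul (c := C3 + 1) (by linarith)
  have a3 := CB_rel hC hLLN hY hM
  have a4 := ((hFAR M hM1).toN).smul (c := (Y : ℝ) ^ 2) (by positivity)
  exact ((((a1.add a2).add a3).add a4).add (RelN.const (c := 1) (by norm_num))).smul (c := 1 / (Y : ℝ)) (by positivity)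

/-- choice of the parameters -/
theorem GG_rel (hLLN : S_LLN) (hFAR : S_FAR) (hONE : S_ONE) (hINC : S_INC) (hCPL : S_CPL) :
    ∃ δ C3 : ℝ, 0 < δ ∧ 0 ≤ C3 ∧ (∀ y v : ℝ, (y ≠ 0 ∨ v ≠ 0) →
    |Real.log (Real.sqrt (y ^ 2 + v ^ 2)) - ell y| ≤ C3 * (Real.exp (2 * δ * |v|) / (1 + |y|) ^ 2) +
      max 0 (Real.log (1 / Real.sqrt (y ^ 2 + v ^ 2)))) ∧
    (∃ C1 : ℝ, 0 ≤ C1 ∧ RelW (fun T t => SS δ T t + SL T t) C1) ∧
    ∀ η : ℝ, 0 < η → ∃ M₁ : ℕ, ∀ M : ℕ, M₁ ≤ M → ∃ Y : ℕ, 1 ≤ Y ∧ 2 * Y + 1 ≤ M ∧ RelN (GG δ C3 Y M) η := by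
  obtain ⟨C, hC, hLLN⟩ := hLLN
  obtain ⟨CF, hCF, hFAR⟩ := hFAR
  obtain ⟨δ, C1, hδ, hC1, hONE⟩ := hONE
  obtain ⟨Ci, δ₀, hCi, hδ₀, hINC⟩ := hINC
  obtain ⟨C3, hC3, hcpl⟩ := hCPL δ hδ
  refine ⟨δ, C3, hδ, hC3, hcpl, ⟨C1, hC1, hONE⟩, fun η hη => ?_⟩
  set δi : ℝ := min δ₀ (η / (4 * (Ci + 1))) with hδi
  have hδi0 : 0 < δi := lt_min hδ₀ (by positivity)
  have hδi1 : Ci * δi ≤ η / 4 := by
    have h1 : δi ≤ η / (4 * (Ci + 1)) := min_le_right _ _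
    calc Ci * δi ≤ (Ci + 1) * (η / (4 * (Ci + 1))) := by gcongr; linarith
      _ = η / 4 := by field_simp
  obtain ⟨C', hC', hINC⟩ := hINC δi hδi0 (min_le_left _ _)
  obtain ⟨Λ, hΛ⟩ := exists_nat_gt (4 * (4 + CF) / η + 3)
  have hΛ3 : (3 : ℝ) < Λ := by
    have : 0 ≤ 4 * (4 + CF) / η := by positivity
    linarith
  have hΛ3' : 3 ≤ Λ := by
    have : (3 : ℝ) ≤ Λ := hΛ3.le
    exact_mod_cast this
  have hΛ0 : (0 : ℝ) < Λ := by linarith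
  have hΛ1 : (4 + CF) / Λ ≤ η / 4 := by
    rw [div_le_iff₀ hΛ0]
    have : 4 * (4 + CF) / η ≤ Λ := by linarith
    rw [div_le_iff₀ hη] at this
    linarith
  set R : ℝ := C' + (C3 + 1) * (C1 + C1) + 2 with hR
  set R2 : ℝ := 19 * C * Real.sqrt (2 * Λ) with hR2
  have hR0 : 0 ≤ R := by positivity
  have hR20 : 0 ≤ R2 := by positivity
  obtain ⟨Y₁, hYg₁⟩ := exists_nat_gt (max 1 (max (4 * R / η) ((4 * R2 / η) ^ 2)))
  refine ⟨Λ * (Y₁ + 1), fun M hMM => ?_⟩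
  set Y : ℕ := M / Λ with hYdef
  have hYY : Y₁ + 1 ≤ Y := by
    rw [hYdef, Nat.le_div_iff_mul_le (by omega), mul_comm]
    exact hMM
  have hYM1 : Λ * Y ≤ M := Nat.mul_div_le M Λ
  have hYM2 : M < Λ * (Y + 1) := by
    rw [hYdef, mul_add, mul_one]
    have := Nat.div_add_mod M Λ
    have h2 := Nat.mod_lt M (show 0 < Λ by omega)
    omega
  have hYg : max 1 (max (4 * R / η) ((4 * R2 / η) ^ 2)) < (Y : ℝ) := by
    have : (Y₁ : ℝ) ≤ Y := by exact_mod_cast (by omega : Y₁ ≤ Y)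
    linarith
  have hY1 : (1 : ℝ) < Y := lt_of_le_of_lt (le_max_left _ _) hYg
  have hYR : 4 * R / η < Y := lt_of_le_of_lt ((le_max_left _ _).trans (le_max_right _ _)) hYg
  have hYR2 : (4 * R2 / η) ^ 2 < Y := lt_of_le_of_lt ((le_max_right _ _).trans (le_max_right _ _)) hYg
  have hY0 : (0 : ℝ) < Y := by linarith
  have hY1' : 1 ≤ Y := by exact_mod_cast hY1.le
  have hM : 2 * Y + 1 ≤ M := by
    calc 2 * Y + 1 ≤ 3 * Y := by omega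
      _ ≤ Λ * Y := Nat.mul_le_mul_right _ hΛ3'
      _ ≤ M := hYM1
  have hM1 : (Λ : ℝ) * Y ≤ M := by exact_mod_cast hYM1
  have hM2 : (M : ℝ) ≤ 2 * Λ * Y := by
    have : (M : ℝ) ≤ Λ * (Y + 1) := by exact_mod_cast hYM2.le
    nlinarith
  have hM0 : (0 : ℝ) < M := lt_of_lt_of_le (by positivity) hM1
  refine ⟨Y, hY1', hM, ?_⟩
  refine (GG_rel1 hC hC3 hLLN hFAR hONE hINC hY1' hM).mono ?_
  set q : ℝ := Real.sqrt Y with hq
  have hq0 : 0 < q := Real.sqrt_pos.2 hY0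
  have hqq : (Y : ℝ) = q ^ 2 := (Real.sq_sqrt hY0.le).symm
  have hq2 : 4 * R2 / η ≤ q := by
    rw [hqq] at hYR2
    exact le_of_lt (lt_of_pow_lt_pow_left₀ 2 hq0.le hYR2)
  have e1 : Real.sqrt (M : ℝ) ≤ Real.sqrt (2 * Λ) * q := by
    rw [hq, ← Real.sqrt_mul (by positivity)]
    exact Real.sqrt_le_sqrt hM2
  have e3 : (Y : ℝ) ^ 2 / M ≤ Y / Λ := by
    rw [div_le_div_iff₀ hM0 hΛ0]
    nlinarith
  have e4 : 19 * C * Real.sqrt M + 4 * (Y : ℝ) ^ 2 / M ≤ R2 * q + 4 * (Y / Λ) := by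
    have a1 : 19 * C * Real.sqrt M ≤ R2 * q := by
      rw [hR2, mul_assoc (19 * C)]
      exact mul_le_mul_of_nonneg_left e1 (by linarith)
    have a2 : 4 * (Y : ℝ) ^ 2 / M = 4 * ((Y : ℝ) ^ 2 / M) := by ring
    rw [a2]
    linarith
  have e5 : (Y : ℝ) ^ 2 * (CF / M) ≤ CF * (Y / Λ) := by
    have : (Y : ℝ) ^ 2 * (CF / M) = CF * ((Y : ℝ) ^ 2 / M) := by ring
    rw [this]
    exact mul_le_mul_of_nonneg_left e3 hCF
  have e6 : C' + Ci * δi * Y + (C3 + 1) * (C1 + C1) + (19 * C * Real.sqrt M + 4 * (Y : ℝ) ^ 2 / M) +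
      (Y : ℝ) ^ 2 * (CF / M) + 2 * 1 ≤ Y * (Ci * δi + (4 + CF) / Λ + R / Y + R2 / q) := by
    have : Y * (Ci * δi + (4 + CF) / Λ + R / Y + R2 / q) = Ci * δi * Y + (4 * (Y / Λ) + CF * (Y / Λ)) + R + R2 * q := by
      have h1 : (Y : ℝ) * (R2 / q) = R2 * q := by rw [hqq]; field_simp
      rw [mul_add, h1]
      field_simp
    rw [this, hR]
    linarith
  have h3 : R / Y ≤ η / 4 := by
    rw [div_le_iff₀ hY0]
    rw [div_lt_iff₀ hη] at hYR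
    linarith
  have h4 : R2 / q ≤ η / 4 := by
    rw [div_le_iff₀ hq0]
    rw [div_le_iff₀ hη] at hq2
    linarith
  rw [one_div, inv_mul_eq_div, div_le_iff₀ hY0]
  refine e6.trans ?_
  rw [mul_comm]
  exact mul_le_mul_of_nonneg_right (by linarith) hY0.le

end

end Pool.Agent.H444.MH
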