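import Pool.Agent.H444.MH.Rel

set_option autoImplicit false

namespace Pool.Agent.H444.MH

open Filter Topology MeasureTheory Complex Set
open Pool.Agent.Q97.UM
open scoped ComplexConjugate

noncomputable section

/-- microscopic coordinate of a zero, seen from `t` -/
def xi (T t : ℝ) (s : ℂ) : ℂ := (Real.log T : ℂ) * (H370.zz s - t)

open Classical in
/-- the zeros near `t` -/
def nr (T M t : ℝ) : Finset ℂ := (ZD T).filter (fun s => |s.im - t| ≤ M / Real.log T)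

/-- the product over the zeros near `t` -/
def Pn (T M t : ℝ) (u : ℂ) : ℂ := ∏ s ∈ nr T M t, (1 - u / xi T t s) ^ mz s

lemma xi_re (T t : ℝ) (s : ℂ) : (xi T t s).re = Real.log T * (s.im - t) := by
  unfold xi
  rw [Complex.re_ofReal_mul, Complex.sub_re, H370.zz_re, Complex.ofReal_re]

lemma xi_im (T t : ℝ) (s : ℂ) : (xi T t s).im = Real.log T * (1 / 2 - s.re) := by
  unfold xi
  rw [Complex.im_ofReal_mul, Complex.sub_im, H370.zz_im, Complex.ofReal_im, sub_zero]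
  ring

lemma xi_eq (T t : ℝ) (s : ℂ) : xi T t s = -I * (Real.log T : ℂ) * (s - (1 / 2 + t * I)) := by
  unfold xi H370.zz
  have : I * I = -1 := Complex.I_mul_I
  linear_combination (-(Real.log T : ℂ) * (t : ℂ)) * this

lemma xi_norm {T : ℝ} (hL : 0 < Real.log T) (t : ℝ) (s : ℂ) : ‖xi T t s‖ = Real.log T * ‖s - (1 / 2 + t * I)‖ := by
  rw [xi_eq]
  simp [abs_of_pos hL]

lemma mem_ZD {T : ℝ} (hT : 16 ≤ T) {s : ℂ} : s ∈ ZD T ↔
    (0 < s.re ∧ s.re < 1 ∧ T / 16 < s.im ∧ s.im ≤ 16 * T ∧ riemannZeta s = 0) := by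
  unfold ZD
  rw [H370.mem_Zf H370.good_zeta (by linarith)]
  rfl

lemma ZD_zero {T : ℝ} (hT : 16 ≤ T) {s : ℂ} (hs : s ∈ ZD T) : riemannZeta s = 0 := ((mem_ZD hT).1 hs).2.2.2.2

lemma xi_ne {T : ℝ} (hT : 16 ≤ T) (hL : 0 < Real.log T) {s : ℂ} (hs : s ∈ ZD T) {t : ℝ} (h : zt t ≠ 0) :
    xi T t s ≠ 0 := by
  intro h0
  have h1 := xi_norm hL t s
  rw [h0, norm_zero] at h1
  have h2 : s - (1 / 2 + t * I) = 0 := by
    have : ‖s - (1 / 2 + t * I)‖ = 0 := by
      rcases mul_eq_zero.1 h1.symm with h | h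
      · exact absurd h hL.ne'
      · exact h
    exact norm_eq_zero.1 this
  apply h
  unfold zt
  rw [← sub_eq_zero.1 h2]
  exact ZD_zero hT hs

lemma xi_shift (T t Y : ℝ) (hL : Real.log T ≠ 0) (s : ℂ) : xi T (t + Y / Real.log T) s = xi T t s - Y := by
  unfold xi
  push_cast
  have : (Real.log T : ℂ) ≠ 0 := by exact_mod_cast hL
  field_simp
  ring

/-- symmetry: the near sum of `m / ξ` is real -/
lemma near_real {T : ℝ} (hT : 16 ≤ T) (M t : ℝ) :
    (∑ s ∈ nr T M t, (mz s : ℂ) / xi T t s).im = 0 := by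
  classical
  set f : ℂ → ℂ := fun s => if |s.im - t| ≤ M / Real.log T then (mz s : ℂ) / xi T t s else 0 with hf
  have e1 : ∑ s ∈ nr T M t, (mz s : ℂ) / xi T t s = ∑ s ∈ ZD T, f s := by
    unfold nr
    rw [Finset.sum_filter]
  have hU : (1 : ℝ) ≤ T / 16 := by linarith
  have h1 : ∑ s ∈ ZD T, f (1 - conj s) = ∑ s ∈ ZD T, f s := H370.sum_refl H370.good_zeta hU f
  have h2 : ∀ s ∈ ZD T, f (1 - conj s) = conj (f s) := by
    intro s hs
    obtain ⟨a1, a2, a3, a4, a5⟩ := (mem_ZD hT).1 hs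
    have hm : mz (1 - conj s) = mz s := H370.mult_refl H370.good_zeta a1 a2 (by linarith)
    have him : (1 - conj s).im = s.im := by simp
    have hx : xi T t (1 - conj s) = conj (xi T t s) := by
      unfold xi
      rw [H370.zz_refl]
      simp
    simp only [hf, him, hm, hx]
    split_ifs
    · rw [map_div₀]
      simp
    · simp
  rw [e1]
  have h3 : conj (∑ s ∈ ZD T, f s) = ∑ s ∈ ZD T, f s := by
    rw [map_sum]
    calc ∑ s ∈ ZD T, conj (f s) = ∑ s ∈ ZD T, f (1 - conj s) := Finset.sum_congr rfl fun s hs => (h2 s hs).symm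
      _ = _ := h1
  exact Complex.conj_eq_iff_im.1 h3

/-- `log (1 - z) + z` is small -/
lemma one_sub_exp {z : ℂ} (hz : ‖z‖ ≤ 1 / 2) : ∃ e : ℂ, ‖e‖ ≤ ‖z‖ ^ 2 ∧ 1 - z = cexp (-z + e) := by
  refine ⟨Complex.log (1 - z) + z, ?_, ?_⟩
  · have h := Complex.norm_log_one_add_sub_self_le (z := -z) (by rw [norm_neg]; linarith)
    rw [norm_neg] at h
    have e1 : Complex.log (1 - z) + z = Complex.log (1 + -z) - -z := by
      rw [← sub_eq_add_neg]; ring
    rw [e1]
    refine h.trans ?_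
    have h2 : (1 - ‖z‖)⁻¹ ≤ 2 := by
      rw [inv_le_comm₀ (by linarith) (by norm_num)]
      linarith
    have h3 : 0 ≤ ‖z‖ ^ 2 := sq_nonneg _
    calc ‖z‖ ^ 2 * (1 - ‖z‖)⁻¹ / 2 ≤ ‖z‖ ^ 2 * 2 / 2 := by gcongr
      _ = ‖z‖ ^ 2 := by ring
  · have hne : 1 - z ≠ 0 := by
      intro h
      have : z = 1 := (sub_eq_zero.1 h).symm
      rw [this] at hz
      norm_num at hz
    rw [show -z + (Complex.log (1 - z) + z) = Complex.log (1 - z) by ring, Complex.exp_log hne]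

end

end Pool.Agent.H444.MH
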