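import Pool.Agent.H444.MH.Det

set_option autoImplicit false

namespace Pool.Agent.H444.MH

open Filter Topology MeasureTheory Complex Set
open Pool.Agent.Q97.UM
open scoped ComplexConjugate

noncomputable section

/-- the far zeros -/
def fr (T M t : ℝ) : Finset ℂ := by
  classical
  exact (ZD T).filter (fun s => |s.im - t| ≤ 1 ∧ M / Real.log T < |s.im - t|)

lemma far_eq (T M t : ℝ) : far M T t = ∑ s ∈ fr T M t, (mz s : ℝ) * (1 / (Real.log T * (s.im - t)) ^ 2) := by
  unfold far fr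
  rfl

lemma split_prod {T M t : ℝ} (hM : M / Real.log T ≤ 1) (f : ℂ → ℂ) :
    ∏ s ∈ (by classical exact (ZD T).filter (fun s => |s.im - t| ≤ 1)), f s =
      (∏ s ∈ nr T M t, f s) * ∏ s ∈ fr T M t, f s := by
  classical
  have h1 : nr T M t = ((ZD T).filter (fun s => |s.im - t| ≤ 1)).filter (fun s => |s.im - t| ≤ M / Real.log T) := by
    unfold nr
    ext s
    simp only [Finset.mem_filter]
    constructor
    · rintro ⟨a, b⟩
      exact ⟨⟨a, b.trans hM⟩, b⟩
    · rintro ⟨⟨a, _⟩, b⟩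
      exact ⟨a, b⟩
  have h2 : fr T M t = ((ZD T).filter (fun s => |s.im - t| ≤ 1)).filter (fun s => ¬ |s.im - t| ≤ M / Real.log T) := by
    unfold fr
    ext s
    simp only [Finset.mem_filter, not_le]
    tauto
  rw [h1, h2, Finset.prod_filter_mul_prod_filter_not]

lemma split_sum {T M t : ℝ} (hM : M / Real.log T ≤ 1) (f : ℂ → ℂ) :
    ∑ s ∈ (by classical exact (ZD T).filter (fun s => |s.im - t| ≤ 1)), f s =
      (∑ s ∈ nr T M t, f s) + ∑ s ∈ fr T M t, f s := by
  classical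
  have h1 : nr T M t = ((ZD T).filter (fun s => |s.im - t| ≤ 1)).filter (fun s => |s.im - t| ≤ M / Real.log T) := by
    unfold nr
    ext s
    simp only [Finset.mem_filter]
    constructor
    · rintro ⟨a, b⟩
      exact ⟨⟨a, b.trans hM⟩, b⟩
    · rintro ⟨⟨a, _⟩, b⟩
      exact ⟨a, b⟩
  have h2 : fr T M t = ((ZD T).filter (fun s => |s.im - t| ≤ 1)).filter (fun s => ¬ |s.im - t| ≤ M / Real.log T) := by
    unfold fr
    ext s
    simp only [Finset.mem_filter, not_le]
    tauto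
  rw [h1, h2, Finset.sum_filter_add_sum_filter_not]

lemma xi_eq' (T t : ℝ) (s : ℂ) : xi T t s = I * (Real.log T : ℂ) * ((1 / 2 + t * I) - s) := by
  rw [xi_eq]; ring

/-- factorisation of zeta near a point of the critical line -/
theorem det1 (h : S_LEX) : ∃ C : ℝ, 0 ≤ C ∧ ∀ᶠ T : ℝ in atTop, ∀ t : ℝ, T ≤ t → t ≤ 2 * T → zt t ≠ 0 →
    ∀ M : ℝ, 1 ≤ M → M ≤ Real.log T / 50 → ∃ A : ℂ, |A.im + 1 / 2| ≤ C / Real.log T ∧
      ∀ u : ℂ, 2 * ‖u‖ ≤ M → ∃ E : ℂ, ‖E‖ ≤ ‖u‖ ^ 2 * far M T t + C * ‖u‖ ^ 2 / Real.log T ∧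
        riemannZeta (1 / 2 + t * I + I * u / (Real.log T : ℂ)) = zt t * Pn T M t u * cexp (A * u + E) := by
  classical
  obtain ⟨C₀, hC₀, h⟩ := h
  obtain ⟨C₁, hC₁⟩ := H370.good_zeta.left
  refine ⟨C₀ + |C₁| + 1, by positivity, ?_⟩
  filter_upwards [h, log_ev] with T hT hl t ht1 ht2 hz M hM1 hM2
  obtain ⟨hT16, hL, hLT⟩ := hl
  obtain ⟨a, hd, hw⟩ := hT t ht1 ht2 hz
  set L : ℝ := Real.log T with hLdef
  have hL0 : 0 < L := by linarith
  have hLc : (L : ℂ) ≠ 0 := by exact_mod_cast hL0.ne'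
  have hI : (I : ℂ) ≠ 0 := Complex.I_ne_zero
  have hML : M / L ≤ 1 := by
    rw [div_le_one hL0]; linarith
  set s₀ : ℂ := 1 / 2 + t * I with hs₀
  have hxi : ∀ s ∈ ZD T, xi T t s ≠ 0 := fun s hs => xi_ne hT16 hL0 hs hz
  have hnrZ : ∀ s ∈ nr T M t, s ∈ ZD T := fun s hs => by
    unfold nr at hs; exact (Finset.mem_filter.1 hs).1
  have hfrZ : ∀ s ∈ fr T M t, s ∈ ZD T := fun s hs => by
    unfold fr at hs; exact (Finset.mem_filter.1 hs).1
  -- 1/(s₀ - s) = I L / xi
  have hinv : ∀ s ∈ ZD T, ∀ c : ℂ, c / (s₀ - s) = c * (I * L) / xi T t s := by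
    intro s hs c
    have h1 := hxi s hs
    have h2 : xi T t s = I * (L : ℂ) * (s₀ - s) := xi_eq' T t s
    have h3 : s₀ - s ≠ 0 := by
      intro h0; rw [h2, h0, mul_zero] at h1; exact h1 rfl
    rw [h2]
    field_simp
  set F : ℂ := ∑ s ∈ fr T M t, (mz s : ℂ) / xi T t s with hF
  set Nn : ℂ := ∑ s ∈ nr T M t, (mz s : ℂ) / xi T t s with hN
  refine ⟨a * I / L - F, ?_, ?_⟩
  · -- the imaginary part
    have hsum : (∑ s ∈ (ZD T).filter (fun s => |s.im - t| ≤ 1), (mz s : ℂ) / (s₀ - s)) = (I * L) * (Nn + F) := by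
      have e := split_sum (T := T) (M := M) (t := t) hML (fun s => (mz s : ℂ) / (s₀ - s))
      have e2 : ∀ s ∈ nr T M t, (mz s : ℂ) / (s₀ - s) = (I * L) * ((mz s : ℂ) / xi T t s) := by
        intro s hs; rw [hinv s (hnrZ s hs)]; ring
      have e3 : ∀ s ∈ fr T M t, (mz s : ℂ) / (s₀ - s) = (I * L) * ((mz s : ℂ) / xi T t s) := by
        intro s hs; rw [hinv s (hfrZ s hs)]; ring
      rw [Finset.sum_congr rfl e2, Finset.sum_congr rfl e3, ← Finset.mul_sum, ← Finset.mul_sum] at e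
      rw [hN, hF, mul_add]
      exact e
    rw [hsum] at hd
    set q : ℂ := deriv riemannZeta s₀ / riemannZeta s₀ with hq
    have hzs : riemannZeta s₀ = zt t := rfl
    have hq1 : q = a + (I * L) * (Nn + F) := by
      rw [hq, hd, hzs]
      field_simp
    have hA : a * I / L - F = I / L * q + Nn := by
      rw [hq1]
      field_simp
      linear_combination (-(L : ℂ) * (Nn + F)) * Complex.I_mul_I
    have hNim : Nn.im = 0 := near_real hT16 M t
    have him : (a * I / L - F).im = q.re / L := by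
      rw [hA, Complex.add_im, hNim, add_zero]
      have : I / (L : ℂ) * q = (1 / L : ℝ) * (I * q) := by push_cast; ring
      rw [this, Complex.im_ofReal_mul]
      simp
      ring
    have hleft := hC₁ s₀ (by simp [hs₀]; norm_num) (by simp [hs₀]) (by simp [hs₀]; linarith) (by rw [hzs]; exact hz)
    have hrefl : 1 - (starRingEnd ℂ) s₀ = s₀ := by
      rw [hs₀]
      simp only [map_add, map_mul, map_div₀, map_one, Complex.conj_ofReal, Complex.conj_I, map_ofNat]
      ring
    rw [hrefl] at hleft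
    have him0 : s₀.im = t := by simp [hs₀]
    rw [him0] at hleft
    have hre : (q + Real.log t + conj q).re = 2 * q.re + Real.log t := by
      simp only [Complex.add_re, Complex.ofReal_re, Complex.conj_re]
      ring
    have h1 : |2 * q.re + Real.log t| ≤ C₁ := by
      rw [← hre]; exact (Complex.abs_re_le_norm _).trans hleft
    have hlt1 : L ≤ Real.log t := Real.log_le_log (by linarith) ht1
    have hlt2 : Real.log t ≤ L + 1 := by
      have h2 : Real.log t ≤ Real.log (2 * T) := Real.log_le_log (by linarith) ht2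
      rw [Real.log_mul (by norm_num) (by linarith)] at h2
      have := Real.log_two_lt_d9
      linarith
    rw [him]
    have e3 : q.re / L + 1 / 2 = ((2 * q.re + Real.log t) - (Real.log t - L)) / (2 * L) := by
      field_simp
      ring
    rw [e3, abs_div, abs_of_pos (by linarith : (0 : ℝ) < 2 * L), div_le_div_iff₀ (by linarith) hL0]
    have h3 : |(2 * q.re + Real.log t) - (Real.log t - L)| ≤ C₁ + 1 := by
      have := abs_le.1 h1
      rw [abs_le]
      constructor <;> linarith [this.1, this.2]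
    have h4 : C₁ ≤ |C₁| := le_abs_self _
    have h5 := abs_nonneg C₁
    have h6 : |(2 * q.re + Real.log t) - (Real.log t - L)| ≤ (C₀ + |C₁| + 1) * 2 := by linarith
    calc |(2 * q.re + Real.log t) - (Real.log t - L)| * L ≤ ((C₀ + |C₁| + 1) * 2) * L :=
          mul_le_mul_of_nonneg_right h6 hL0.le
      _ = (C₀ + |C₁| + 1) * (2 * L) := by ring
  · intro u hu
    have hwn : ‖I * u / (L : ℂ)‖ = ‖u‖ / L := by
      rw [norm_div, norm_mul, Complex.norm_I, one_mul, Complex.norm_real, Real.norm_of_nonneg hL0.le]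
    have hw1 : ‖I * u / (L : ℂ)‖ ≤ 1 / 100 := by
      rw [hwn, div_le_div_iff₀ hL0 (by norm_num)]
      linarith
    obtain ⟨e, he1, he2⟩ := hw _ hw1
    -- factors
    have hfac : ∀ s ∈ ZD T, 1 + (I * u / (L : ℂ)) / (s₀ - s) = 1 - u / xi T t s := by
      intro s hs
      rw [hinv s hs]
      have h1 := hxi s hs
      field_simp
      linear_combination u * Complex.I_mul_I
    have hfar : ∀ s ∈ fr T M t, ‖u / xi T t s‖ ≤ 1 / 2 ∧ ‖u / xi T t s‖ ^ 2 ≤ ‖u‖ ^ 2 * (1 / (L * (s.im - t)) ^ 2) := by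
      intro s hs
      unfold fr at hs
      obtain ⟨h1, h2, h3⟩ := Finset.mem_filter.1 hs
      have h4 : L * |s.im - t| ≤ ‖xi T t s‖ := by
        have := Complex.abs_re_le_norm (xi T t s)
        rw [xi_re, abs_mul, abs_of_pos hL0] at this
        exact this
      have h5 : M < L * |s.im - t| := by
        rw [div_lt_iff₀ hL0] at h3
        linarith
      have h6 : 0 < L * |s.im - t| := by linarith
      have h7 : 0 < ‖xi T t s‖ := by linarith
      constructor
      · rw [norm_div, div_le_div_iff₀ h7 (by norm_num)]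
        linarith
      · rw [norm_div, div_pow, div_eq_mul_one_div]
        apply mul_le_mul_of_nonneg_left _ (sq_nonneg _)
        apply one_div_le_one_div_of_le
        · rw [← sq_abs, abs_mul, abs_of_pos hL0]; positivity
        · rw [← sq_abs (L * (s.im - t)), abs_mul, abs_of_pos hL0]
          exact pow_le_pow_left₀ h6.le h4 2
    choose! ef hef1 hef2 using fun s (hs : s ∈ fr T M t) => one_sub_exp (hfar s hs).1
    refine ⟨e + ∑ s ∈ fr T M t, (mz s : ℂ) * ef s, ?_, ?_⟩
    · have h1 : ‖∑ s ∈ fr T M t, (mz s : ℂ) * ef s‖ ≤ ‖u‖ ^ 2 * far M T t := by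
        rw [far_eq, Finset.mul_sum]
        refine (norm_sum_le _ _).trans (Finset.sum_le_sum fun s hs => ?_)
        rw [norm_mul, Complex.norm_natCast]
        calc (mz s : ℝ) * ‖ef s‖ ≤ mz s * (‖u‖ ^ 2 * (1 / (L * (s.im - t)) ^ 2)) :=
              mul_le_mul_of_nonneg_left ((hef1 s hs).trans (hfar s hs).2) (Nat.cast_nonneg _)
          _ = _ := by ring
      have h2 : ‖e‖ ≤ (C₀ + |C₁| + 1) * ‖u‖ ^ 2 / L := by
        refine he1.trans ?_
        rw [hwn, div_pow]
        have : C₀ * L * (‖u‖ ^ 2 / L ^ 2) = C₀ * ‖u‖ ^ 2 / L := by field_simp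
        rw [this]
        apply div_le_div_of_nonneg_right _ hL0.le
        apply mul_le_mul_of_nonneg_right _ (sq_nonneg _)
        linarith [abs_nonneg C₁]
      calc ‖e + ∑ s ∈ fr T M t, (mz s : ℂ) * ef s‖ ≤ ‖e‖ + ‖∑ s ∈ fr T M t, (mz s : ℂ) * ef s‖ := norm_add_le _ _
        _ ≤ _ := by linarith
    · rw [he2]
      have e1 := split_prod (T := T) (M := M) (t := t) hML (fun s => (1 + (I * u / (L : ℂ)) / (s₀ - s)) ^ mz s)
      have e2 : (∏ s ∈ (ZD T).filter (fun s => |s.im - t| ≤ 1), (1 + (I * u / (L : ℂ)) / (s₀ - s)) ^ mz s) =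
          (∏ s ∈ nr T M t, (1 + (I * u / (L : ℂ)) / (s₀ - s)) ^ mz s) * ∏ s ∈ fr T M t, (1 + (I * u / (L : ℂ)) / (s₀ - s)) ^ mz s := e1
      have e3 : (∏ s ∈ nr T M t, (1 + (I * u / (L : ℂ)) / (s₀ - s)) ^ mz s) = Pn T M t u := by
        unfold Pn
        exact Finset.prod_congr rfl fun s hs => by rw [hfac s (hnrZ s hs)]
      have e4 : (∏ s ∈ fr T M t, (1 + (I * u / (L : ℂ)) / (s₀ - s)) ^ mz s) =
          cexp (-(F * u) + ∑ s ∈ fr T M t, (mz s : ℂ) * ef s) := by
        rw [hF, Finset.sum_mul, ← Finset.sum_neg_distrib, ← Finset.sum_add_distrib, Complex.exp_sum]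
        refine Finset.prod_congr rfl fun s hs => ?_
        rw [hfac s (hfrZ s hs), hef2 s hs, ← Complex.exp_nat_mul]
        congr 1
        ring
      rw [e2, e3, e4]
      have e5 : cexp ((a * I / L - F) * u + (e + ∑ s ∈ fr T M t, (mz s : ℂ) * ef s)) =
          cexp (-(F * u) + ∑ s ∈ fr T M t, (mz s : ℂ) * ef s) * cexp (a * (I * u / L) + e) := by
        rw [← Complex.exp_add]
        congr 1
        ring
      rw [e5]
      ring

end

end Pool.Agent.H444.MH
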