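import Pool.Agent.H444.MH.Det2

set_option autoImplicit false

namespace Pool.Agent.H444.MH

open Filter Topology MeasureTheory Complex Set
open Pool.Agent.Q97.UM
open scoped ComplexConjugate

noncomputable section

lemma nr_sub {T M t : ℝ} {s : ℂ} (hs : s ∈ nr T M t) : s ∈ ZD T := by
  unfold nr at hs; exact (Finset.mem_filter.1 hs).1

/-- the logarithm of the modulus of the near product at a real point -/
lemma log_Pn {T : ℝ} (hT : 16 ≤ T) (hL : 0 < Real.log T) {M t Y : ℝ} (h1 : zt t ≠ 0) (h2 : zt (t + Y / Real.log T) ≠ 0) :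
    Pn T M t Y ≠ 0 ∧ Real.log ‖Pn T M t Y‖ =
      ∑ s ∈ nr T M t, (mz s : ℝ) * (Real.log ‖xi T t s - Y‖ - Real.log ‖xi T t s‖) := by
  have hx : ∀ s ∈ nr T M t, xi T t s ≠ 0 := fun s hs => xi_ne hT hL (nr_sub hs) h1
  have hy : ∀ s ∈ nr T M t, xi T t s - Y ≠ 0 := fun s hs => by
    rw [← xi_shift T t Y hL.ne']
    exact xi_ne hT hL (nr_sub hs) h2
  have e : ∀ s ∈ nr T M t, 1 - (Y : ℂ) / xi T t s = (xi T t s - Y) / xi T t s := by
    intro s hs
    have := hx s hs
    field_simp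
  have hne : ∀ s ∈ nr T M t, 1 - (Y : ℂ) / xi T t s ≠ 0 := by
    intro s hs
    rw [e s hs]
    exact div_ne_zero (hy s hs) (hx s hs)
  constructor
  · unfold Pn
    exact Finset.prod_ne_zero_iff.2 fun s hs => pow_ne_zero _ (hne s hs)
  · unfold Pn
    rw [norm_prod, Real.log_prod fun s hs => by
      rw [norm_pow]
      exact pow_ne_zero _ (norm_ne_zero_iff.2 (hne s hs))]
    refine Finset.sum_congr rfl fun s hs => ?_
    rw [norm_pow, Real.log_pow, e s hs, norm_div,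
      Real.log_div (norm_ne_zero_iff.2 (hy s hs)) (norm_ne_zero_iff.2 (hx s hs))]

lemma cpl_xi {δ C : ℝ} (hC : ∀ y v : ℝ, (y ≠ 0 ∨ v ≠ 0) →
    |Real.log (Real.sqrt (y ^ 2 + v ^ 2)) - ell y| ≤ C * (Real.exp (2 * δ * |v|) / (1 + |y|) ^ 2) +
      max 0 (Real.log (1 / Real.sqrt (y ^ 2 + v ^ 2)))) {T : ℝ} (hT : 16 ≤ T) (hL : 0 < Real.log T) {t : ℝ} (h : zt t ≠ 0)
    {s : ℂ} (hs : s ∈ ZD T) :
    |Real.log ‖xi T t s‖ - ell (Real.log T * (s.im - t))| ≤
      C * (Real.exp (2 * δ * (Real.log T * |s.re - 1 / 2|)) / (1 + Real.log T * |s.im - t|) ^ 2) +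
        max 0 (Real.log (1 / (Real.log T * ‖s - (1 / 2 + t * I)‖))) := by
  have hx := xi_ne hT hL hs h
  have h0 : (xi T t s).re ≠ 0 ∨ (xi T t s).im ≠ 0 := by
    by_contra hc
    push Not at hc
    exact hx (Complex.ext hc.1 hc.2)
  have h1 := hC _ _ h0
  have h2 : Real.sqrt ((xi T t s).re ^ 2 + (xi T t s).im ^ 2) = ‖xi T t s‖ := by
    rw [Complex.norm_def, Complex.normSq_apply, sq, sq]
  rw [h2, xi_norm hL t s] at h1
  rw [xi_norm hL t s]
  rw [xi_re, xi_im] at h1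
  have e1 : |Real.log T * (1 / 2 - s.re)| = Real.log T * |s.re - 1 / 2| := by
    rw [abs_mul, abs_of_pos hL, abs_sub_comm]
  have e2 : |Real.log T * (s.im - t)| = Real.log T * |s.im - t| := by
    rw [abs_mul, abs_of_pos hL]
  rw [e1, e2] at h1
  exact h1

lemma SS_nn (δ T t : ℝ) : 0 ≤ SS δ T t := by
  unfold SS
  exact Finset.sum_nonneg fun s _ => by positivity

/-- comparison with the real parts -/
theorem det3 {δ C : ℝ} (hC0 : 0 ≤ C) (hC : ∀ y v : ℝ, (y ≠ 0 ∨ v ≠ 0) →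
    |Real.log (Real.sqrt (y ^ 2 + v ^ 2)) - ell y| ≤ C * (Real.exp (2 * δ * |v|) / (1 + |y|) ^ 2) +
      max 0 (Real.log (1 / Real.sqrt (y ^ 2 + v ^ 2)))) {T : ℝ} (hT : 16 ≤ T) (hL : 0 < Real.log T) {M t Y : ℝ}
    (h1 : zt t ≠ 0) (h2 : zt (t + Y / Real.log T) ≠ 0) :
    |(∑ s ∈ nr T M t, (mz s : ℝ) * (Real.log ‖xi T t s - Y‖ - Real.log ‖xi T t s‖)) -
      ∑ s ∈ nr T M t, (mz s : ℝ) * (ell (Real.log T * (s.im - t) - Y) - ell (Real.log T * (s.im - t)))| ≤
      C * (SS δ T t + SS δ T (t + Y / Real.log T)) + (SL T t + SL T (t + Y / Real.log T)) := by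
  rw [← Finset.sum_sub_distrib]
  refine (Finset.abs_sum_le_sum_abs _ _).trans ?_
  have hyp : ∀ s : ℂ, Real.log T * (s.im - t) - Y = Real.log T * (s.im - (t + Y / Real.log T)) := by
    intro s
    field_simp
    ring
  set B : ℂ → ℝ → ℝ := fun s t' => (mz s : ℝ) * (C * (Real.exp (2 * δ * (Real.log T * |s.re - 1 / 2|)) / (1 + Real.log T * |s.im - t'|) ^ 2) +
        max 0 (Real.log (1 / (Real.log T * ‖s - (1 / 2 + t' * I)‖)))) with hB
  have hBnn : ∀ s t', 0 ≤ B s t' := by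
    intro s t'
    simp only [hB]
    have : 0 ≤ max 0 (Real.log (1 / (Real.log T * ‖s - (1 / 2 + t' * I)‖))) := le_max_left _ _
    positivity
  have hBs : ∀ t', ∑ s ∈ ZD T, B s t' = C * SS δ T t' + SL T t' := by
    intro t'
    unfold SS SL
    rw [Finset.mul_sum, ← Finset.sum_add_distrib]
    refine Finset.sum_congr rfl fun s hs => ?_
    simp only [hB]
    ring
  calc ∑ s ∈ nr T M t, |(mz s : ℝ) * (Real.log ‖xi T t s - Y‖ - Real.log ‖xi T t s‖) -
        (mz s : ℝ) * (ell (Real.log T * (s.im - t) - Y) - ell (Real.log T * (s.im - t)))|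
      ≤ ∑ s ∈ nr T M t, (B s t + B s (t + Y / Real.log T)) := by
        refine Finset.sum_le_sum fun s hs => ?_
        have hsZ := nr_sub hs
        have a1 := cpl_xi hC hT hL h1 hsZ
        have a2 := cpl_xi hC hT hL h2 hsZ
        rw [xi_shift T t Y hL.ne', ← hyp s] at a2
        have hm : (0 : ℝ) ≤ mz s := Nat.cast_nonneg _
        rw [← mul_sub, abs_mul, abs_of_nonneg hm]
        simp only [hB]
        rw [← mul_add]
        refine mul_le_mul_of_nonneg_left ?_ hm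
        have e : (Real.log ‖xi T t s - Y‖ - Real.log ‖xi T t s‖) -
            (ell (Real.log T * (s.im - t) - Y) - ell (Real.log T * (s.im - t))) =
            (Real.log ‖xi T t s - Y‖ - ell (Real.log T * (s.im - t) - Y)) -
              (Real.log ‖xi T t s‖ - ell (Real.log T * (s.im - t))) := by ring
        rw [e]
        refine (abs_sub _ _).trans ?_
        rw [add_comm]
        exact add_le_add a1 a2
    _ ≤ ∑ s ∈ ZD T, (B s t + B s (t + Y / Real.log T)) := by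
        refine Finset.sum_le_sum_of_subset_of_nonneg (fun s hs => nr_sub hs) fun s _ _ => add_nonneg (hBnn _ _) (hBnn _ _)
    _ = _ := by
        rw [Finset.sum_add_distrib, hBs, hBs]
        ring

/-- the deviation of the counting function -/
def Dv (T r t : ℝ) : ℝ := |cnt T r t - r / Real.pi|

/-- the counting bound of CMB in terms of `Dv` -/
def CB (Y M : ℕ) (T t : ℝ) : ℝ :=
  2 * (Y : ℝ) / M * (Dv T (M + Y : ℕ) t + Dv T (M - Y - 1 : ℕ) t + (2 * Y + 1) / Real.pi) +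
    ∑ j ∈ Finset.Ico 1 M, (1 / (j : ℝ)) * (Dv T j t + Dv T (j + 1 : ℕ) t + Dv T j (t + Y / Real.log T) +
      Dv T (j + 1 : ℕ) (t + Y / Real.log T) + 2 / Real.pi)

theorem cmb_nr (h : S_CMB) {T : ℝ} (hL : 0 < Real.log T) (t : ℝ) {Y M : ℕ} (hY : 1 ≤ Y) (hM : 2 * Y + 1 ≤ M) :
    |∑ s ∈ nr T M t, (mz s : ℝ) * (ell (Real.log T * (s.im - t) - Y) - ell (Real.log T * (s.im - t)))| ≤ CB Y M T t := by
  classical
  have h1 := h ℂ (ZD T) (fun s => (mz s : ℝ)) (fun s => Real.log T * (s.im - t)) Y M (fun s _ => Nat.cast_nonneg _) hY hM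
  have f1 : ∀ r : ℝ, (ZD T).filter (fun s => |Real.log T * (s.im - t)| ≤ r) = (ZD T).filter (fun s => |s.im - t| ≤ r / Real.log T) := by
    intro r
    refine Finset.filter_congr fun s _ => ?_
    rw [abs_mul, abs_of_pos hL, le_div_iff₀ hL, mul_comm]
  have f2 : ∀ r : ℝ, (ZD T).filter (fun s => |Real.log T * (s.im - t) - Y| ≤ r) =
      (ZD T).filter (fun s => |s.im - (t + Y / Real.log T)| ≤ r / Real.log T) := by
    intro r
    refine Finset.filter_congr fun s _ => ?_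
    have : Real.log T * (s.im - t) - Y = Real.log T * (s.im - (t + Y / Real.log T)) := by
      field_simp
      ring
    rw [this, abs_mul, abs_of_pos hL, le_div_iff₀ hL, mul_comm]
  simp only [f1, f2] at h1
  unfold CB Dv cnt nr
  exact h1

end

end Pool.Agent.H444.MH
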