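import Pool.Agent.H444.MH.Had3
import Pool.Agent.H161.MH.LLN
import Pool.Agent.H860.MH.FAR
import Pool.Agent.H740.MH.INC
import Pool.Agent.H118.MH.LEX
import Pool.Agent.H294.MH.CMB

set_option autoImplicit false

namespace Pool.Agent.H444.MH

open Filter Topology MeasureTheory Complex Set
open Pool.Agent.Q97.UM
open scoped ComplexConjugate

noncomputable section

/-- the nontrivial zeros with ordinate within `r` of `t` -/
def zN (t r : ℝ) : Set ℂ := {ρ : ℂ | riemannZeta ρ = 0 ∧ 0 < ρ.re ∧ ρ.re < 1 ∧ |ρ.im - t| ≤ r}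

lemma zN_eq {T : ℝ} (hT : 16 ≤ T) (hL : 0 < Real.log T) {M t : ℝ} (hM : M / Real.log T ≤ 1) (h1 : T ≤ t) (h2 : t ≤ 2 * T) :
    zN t (M / Real.log T) = (nr T M t : Set ℂ) := by
  ext s
  unfold zN nr
  simp only [mem_setOf_eq, Finset.coe_filter, mem_ZD hT]
  constructor
  · rintro ⟨a1, a2, a3, a4⟩
    have := abs_le.1 (a4.trans hM)
    exact ⟨⟨a2, a3, by linarith [this.1], by linarith [this.2], a1⟩, a4⟩
  · rintro ⟨⟨a2, a3, _, _, a1⟩, a4⟩
    exact ⟨a1, a2, a3, a4⟩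

/-- symmetry of the near zeros -/
lemma prod_refl {T : ℝ} (hT : 16 ≤ T) {M t : ℝ} (f : ℂ → ℂ) :
    ∏ s ∈ nr T M t, f (1 - conj s) ^ mz s = ∏ s ∈ nr T M t, f s ^ mz s := by
  classical
  have hinv : ∀ s ∈ nr T M t, 1 - conj s ∈ nr T M t ∧ mz (1 - conj s) = mz s := by
    intro s hs
    unfold nr at hs ⊢
    obtain ⟨h1, h2⟩ := Finset.mem_filter.1 hs
    obtain ⟨a1, a2, a3, a4, a5⟩ := (mem_ZD hT).1 h1
    have hm : mz (1 - conj s) = mz s := H370.mult_refl H370.good_zeta a1 a2 (by linarith)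
    have him : (1 - conj s).im = s.im := by simp
    have hre : (1 - conj s).re = 1 - s.re := by simp
    refine ⟨Finset.mem_filter.2 ⟨(mem_ZD hT).2 ⟨by rw [hre]; linarith, by rw [hre]; linarith, by rw [him]; exact a3,
      by rw [him]; exact a4, ?_⟩, by rw [him]; exact h2⟩, hm⟩
    have h0 : 0 < s.im := by linarith
    have hs1 : s ≠ 1 := by
      intro h; rw [h] at a2; norm_num at a2
    have hsn : ∀ n : ℕ, s ≠ -n := by
      intro n h; rw [h] at a1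
      simp at a1
      have : (0 : ℝ) ≤ n := Nat.cast_nonneg n
      linarith
    have hFE := riemannZeta_one_sub hsn hs1
    rw [a5, mul_zero] at hFE
    have : (1 - conj s) = conj (1 - s) := by simp
    rw [this, riemannZeta_conj, hFE, map_zero]
  refine Finset.prod_nbij' (fun s => 1 - conj s) (fun s => 1 - conj s) (fun s hs => (hinv s hs).1) (fun s hs => (hinv s hs).1)
    (fun s _ => by simp) (fun s _ => by simp) (fun s hs => by rw [(hinv s hs).2])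

/-- the product of the two near products at opposite points -/
lemma Pn_mul {T : ℝ} (hT : 16 ≤ T) (hL : 0 < Real.log T) {M t : ℝ} (hz : zt t ≠ 0) (α : ℝ) :
    Pn T M t α * conj (Pn T M t (-α)) = ∏ s ∈ nr T M t, (1 - (α : ℂ) ^ 2 / xi T t s ^ 2) ^ mz s := by
  have h1 : conj (Pn T M t (-α)) = ∏ s ∈ nr T M t, (1 + (α : ℂ) / xi T t s) ^ mz s := by
    unfold Pn
    rw [map_prod]
    have e := prod_refl hT (M := M) (t := t) (fun s => 1 + (α : ℂ) / xi T t s)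
    rw [← e]
    refine Finset.prod_congr rfl fun s hs => ?_
    have hx : xi T t (1 - conj s) = conj (xi T t s) := by
      unfold xi
      rw [H370.zz_refl]
      simp
    rw [map_pow, hx]
    congr 1
    rw [map_sub, map_div₀, map_neg, map_one, Complex.conj_ofReal]
    ring
  rw [h1]
  unfold Pn
  rw [← Finset.prod_mul_distrib]
  refine Finset.prod_congr rfl fun s hs => ?_
  rw [← mul_pow]
  have hx := xi_ne hT hL (nr_sub hs) hz
  congr 1
  field_simp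
  ring

/-- the product in the last lemma is real -/
lemma Pn_real {T : ℝ} (hT : 16 ≤ T) {M t : ℝ} (α : ℝ) :
    (∏ s ∈ nr T M t, (1 - (α : ℂ) ^ 2 / xi T t s ^ 2) ^ mz s).im = 0 := by
  apply Complex.conj_eq_iff_im.1
  rw [map_prod]
  have e := prod_refl hT (M := M) (t := t) (fun s => 1 - (α : ℂ) ^ 2 / xi T t s ^ 2)
  rw [← e]
  refine Finset.prod_congr rfl fun s hs => ?_
  have hx : xi T t (1 - conj s) = conj (xi T t s) := by
    unfold xi
    rw [H370.zz_refl]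
    simp
  rw [map_pow, hx]
  congr 1
  rw [map_sub, map_div₀, map_pow, map_pow, map_one, Complex.conj_ofReal]

lemma pow_diff {x y : ℂ} {B : ℝ} (hB : 1 ≤ B) (hx : ‖x‖ ≤ B) (hy : ‖y‖ ≤ B) (k : ℕ) : ‖x ^ k - y ^ k‖ ≤ k * B ^ k * ‖x - y‖ := by
  induction k with
  | zero => simp
  | succ k ih =>
    have e : x ^ (k + 1) - y ^ (k + 1) = x * (x ^ k - y ^ k) + (x - y) * y ^ k := by ring
    rw [e]
    have h1 : ‖y ^ k‖ ≤ B ^ (k + 1) := by
      rw [norm_pow]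
      calc ‖y‖ ^ k ≤ B ^ k := pow_le_pow_left₀ (norm_nonneg _) hy k
        _ ≤ B ^ (k + 1) := pow_le_pow_right₀ hB (by omega)
    calc ‖x * (x ^ k - y ^ k) + (x - y) * y ^ k‖ ≤ ‖x‖ * ‖x ^ k - y ^ k‖ + ‖x - y‖ * ‖y ^ k‖ := by
          refine (norm_add_le _ _).trans ?_
          rw [norm_mul, norm_mul]
      _ ≤ B * (k * B ^ k * ‖x - y‖) + ‖x - y‖ * B ^ (k + 1) := by
          gcongr
      _ = ((k + 1 : ℕ) : ℝ) * B ^ (k + 1) * ‖x - y‖ := by push_cast; ring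

/-- the theorem with the product over the set of zeros, and the integrand of the shifted moments -/
theorem had1 (K ε : ℝ) (hK : 0 < K) (hε : 0 < ε) : ∃ B : ℝ, 1 ≤ B ∧ ∀ η : ℝ, 0 < η → ∃ M₀ : ℕ, ∀ M : ℕ, M₀ ≤ M →
    ∃ θ : ℝ, 0 < θ ∧ ∃ T₀ : ℝ, ∀ T : ℝ, T₀ ≤ T → ∃ E : Set ℝ, MeasurableSet E ∧ E ⊆ Icc T (2 * T) ∧
      (∀ N : ℕ, (N : ℝ) ≤ T ^ θ → ∀ b : ℕ → ℂ, ∫ t in E, ‖dp N b t‖ ^ 2 ≤ ε * ∫ t in T..(2 * T), ‖dp N b t‖ ^ 2) ∧
      ∀ t ∈ Icc T (2 * T), t ∉ E → zt t ≠ 0 ∧ (zN t (M / Real.log T)).Finite ∧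
        (∀ u : ℂ, ‖u‖ ≤ K →
          ‖riemannZeta (1 / 2 + I * (t + u / (Real.log T : ℂ))) / zt t‖ ≤ B ∧
          ‖riemannZeta (1 / 2 + I * (t + u / (Real.log T : ℂ))) / zt t - cexp (-(I * u / 2)) *
            ∏ᶠ s ∈ zN t (M / Real.log T), (1 - u / ((Real.log T : ℂ) * ((s - 1 / 2) / I - t))) ^ mz s‖ ≤ η) ∧
        ∀ α : ℝ, |α| ≤ K → (∏ᶠ s ∈ zN t (M / Real.log T), (1 - (α : ℂ) ^ 2 / ((Real.log T : ℂ) * ((s - 1 / 2) / I - t)) ^ 2) ^ mz s).im = 0 ∧
          ∀ k : ℕ, (k : ℝ) ≤ K → ‖riemannZeta (1 / 2 + I * α / (Real.log T : ℂ) + I * t) ^ k *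
            riemannZeta (1 / 2 + I * α / (Real.log T : ℂ) - I * t) ^ k -
            cexp (-(I * k * α)) * (∏ᶠ s ∈ zN t (M / Real.log T), (1 - (α : ℂ) ^ 2 / ((Real.log T : ℂ) * ((s - 1 / 2) / I - t)) ^ 2) ^ mz s) ^ k *
              ‖zt t‖ ^ (2 * k)‖ ≤ η * ‖zt t‖ ^ (2 * k) := by
  obtain ⟨B, hB1, h⟩ := had0 Pool.Agent.H161.MH.t_LLN Pool.Agent.H860.MH.t_FAR Pool.Agent.H860.MH.t_ONE
    Pool.Agent.H740.MH.t_INC Pool.Agent.H118.MH.t_LEX Pool.Agent.H294.MH.t_CMB Pool.Agent.H294.MH.t_CPL K ε hK hε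
  refine ⟨B, hB1, fun η hη => ?_⟩
  obtain ⟨kk, hkk⟩ := exists_nat_ge K
  set D : ℝ := (kk : ℝ) * ((B + 1) * (B + 1)) ^ kk * (2 * B + 1) + 1 with hD
  have hB0 : 0 < B := by linarith
  have hD0 : 0 < D := by positivity
  set η' : ℝ := min (min 1 η) (η / D) with hη'
  have hη'0 : 0 < η' := lt_min (lt_min one_pos hη) (by positivity)
  have hη'1 : η' ≤ 1 := (min_le_left _ _).trans (min_le_left _ _)
  have hη'2 : η' ≤ η := (min_le_left _ _).trans (min_le_right _ _)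
  have hη'3 : D * η' ≤ η := by
    have : η' ≤ η / D := min_le_right _ _
    rw [le_div_iff₀ hD0] at this
    linarith
  obtain ⟨M₀, h⟩ := h η' hη'0
  refine ⟨M₀, fun M hM => ?_⟩
  obtain ⟨θ, hθ, h⟩ := h M hM
  have ev1 := Real.tendsto_log_atTop.eventually_ge_atTop (M : ℝ)
  refine ⟨θ, hθ, ?_⟩
  obtain ⟨T₀, hT₀⟩ := eventually_atTop.1 (h.and (log_ev.and ev1))
  refine ⟨T₀, fun T hT => ?_⟩
  obtain ⟨⟨E, hE1, hE2, hE3, hE4⟩, ⟨hT16, hL, hLT⟩, hMT⟩ := hT₀ T hT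
  have hL0 : 0 < Real.log T := by linarith
  refine ⟨E, hE1, hE2, hE3, fun t ht htE => ?_⟩
  obtain ⟨hz, hu⟩ := hE4 t ht htE
  have hset := zN_eq hT16 hL0 ((div_le_one hL0).2 hMT) ht.1 ht.2
  have hxi : ∀ s : ℂ, (Real.log T : ℂ) * ((s - 1 / 2) / I - t) = xi T t s := by
    intro s
    rw [xi_eq]
    field_simp
    rw [Complex.I_sq]
    ring
  have hP : ∀ u : ℂ, ∏ᶠ s ∈ zN t (M / Real.log T), (1 - u / ((Real.log T : ℂ) * ((s - 1 / 2) / I - t))) ^ mz s = Pn T M t u := by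
    intro u
    rw [hset, finprod_mem_coe_finset]
    unfold Pn
    exact Finset.prod_congr rfl fun s _ => by rw [hxi]
  have hP2 : ∀ α : ℝ, ∏ᶠ s ∈ zN t (M / Real.log T), (1 - (α : ℂ) ^ 2 / ((Real.log T : ℂ) * ((s - 1 / 2) / I - t)) ^ 2) ^ mz s =
      ∏ s ∈ nr T M t, (1 - (α : ℂ) ^ 2 / xi T t s ^ 2) ^ mz s := by
    intro α
    rw [hset, finprod_mem_coe_finset]
    exact Finset.prod_congr rfl fun s _ => by rw [hxi]
  have harg : ∀ u : ℂ, (1 / 2 + I * (t + u / (Real.log T : ℂ)) : ℂ) = 1 / 2 + t * I + I * u / (Real.log T : ℂ) := by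
    intro u; ring
  refine ⟨hz, by rw [hset]; exact Finset.finite_toSet _, fun u huK => ?_, fun α hα => ⟨?_, fun k hk => ?_⟩⟩
  · obtain ⟨u1, u2⟩ := hu u huK
    rw [harg u, hP u]
    exact ⟨u1, u2.trans hη'2⟩
  · rw [hP2]
    exact Pn_real hT16 α
  · rw [hP2, ← Pn_mul hT16 hL0 hz α]
    have hα1 : ‖(α : ℂ)‖ ≤ K := by rw [Complex.norm_real]; exact hα
    have hα2 : ‖(-α : ℂ)‖ ≤ K := by rw [norm_neg]; exact hα1
    obtain ⟨p1, p2⟩ := hu α hα1
    obtain ⟨q1, q2⟩ := hu (-α) hα2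
    set r₁ : ℂ := riemannZeta (1 / 2 + t * I + I * α / (Real.log T : ℂ)) / zt t with hr₁
    set r₂ : ℂ := riemannZeta (1 / 2 + t * I + I * (-α) / (Real.log T : ℂ)) / zt t with hr₂
    have e1 : riemannZeta (1 / 2 + I * α / (Real.log T : ℂ) + I * t) = zt t * r₁ := by
      rw [hr₁, mul_div_cancel₀ _ hz]
      congr 1
      ring
    have e2 : riemannZeta (1 / 2 + I * α / (Real.log T : ℂ) - I * t) = conj (zt t * r₂) := by
      rw [hr₂, mul_div_cancel₀ _ hz, ← riemannZeta_conj]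
      congr 1
      simp only [map_add, map_mul, map_div₀, map_neg, map_one, map_ofNat, Complex.conj_ofReal, Complex.conj_I]
      ring
    set a₁ : ℂ := cexp (-(I * α / 2)) * Pn T M t α with ha₁
    set a₂ : ℂ := cexp (-(I * (-α) / 2)) * Pn T M t (-α) with ha₂
    have e3 : cexp (-(I * k * α)) * (Pn T M t α * conj (Pn T M t (-α))) ^ k = (a₁ * conj a₂) ^ k := by
      have h1 : conj a₂ = cexp (-(I * α / 2)) * conj (Pn T M t (-α)) := by
        rw [ha₂, map_mul, ← Complex.exp_conj]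
        congr 2
        simp only [map_neg, map_div₀, map_mul, Complex.conj_I, Complex.conj_ofReal, map_ofNat]
        ring
      rw [h1, ha₁]
      have h2 : cexp (-(I * k * α)) = (cexp (-(I * α / 2)) * cexp (-(I * α / 2))) ^ k := by
        rw [← Complex.exp_add, ← Complex.exp_nat_mul]
        congr 1
        ring
      rw [h2, ← mul_pow]
      congr 1
      ring
    have e4 : riemannZeta (1 / 2 + I * α / (Real.log T : ℂ) + I * t) ^ k *
        riemannZeta (1 / 2 + I * α / (Real.log T : ℂ) - I * t) ^ k = (r₁ * conj r₂) ^ k * ((‖zt t‖ ^ (2 * k) : ℝ) : ℂ) := by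
      rw [e1, e2, map_mul]
      have h3 : zt t * conj (zt t) = ((‖zt t‖ ^ 2 : ℝ) : ℂ) := by
        rw [Complex.mul_conj, Complex.normSq_eq_norm_sq]
      have h4 : ((‖zt t‖ ^ (2 * k) : ℝ) : ℂ) = (zt t * conj (zt t)) ^ k := by
        rw [h3, pow_mul]; push_cast; ring
      rw [h4]
      ring
    have e5 : ((‖zt t‖ : ℂ)) ^ (2 * k) = ((‖zt t‖ ^ (2 * k) : ℝ) : ℂ) := by push_cast; ring
    rw [e5, e4, e3, ← sub_mul, norm_mul, Complex.norm_real, Real.norm_of_nonneg (by positivity)]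
    apply mul_le_mul_of_nonneg_right _ (by positivity)
    -- the difference of the powers
    have b1 : ‖r₁‖ ≤ B + 1 := by linarith
    have b2 : ‖r₂‖ ≤ B + 1 := by linarith
    have b3 : ‖a₁‖ ≤ B + 1 := by
      have := norm_sub_norm_le a₁ r₁
      rw [norm_sub_rev] at this
      have p2' : ‖r₁ - a₁‖ ≤ η' := p2
      linarith
    have b4 : ‖a₂‖ ≤ B + 1 := by
      have := norm_sub_norm_le a₂ r₂
      rw [norm_sub_rev] at this
      have q2' : ‖r₂ - a₂‖ ≤ η' := by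
        have := q2
        simpa [hr₂, ha₂] using this
      linarith
    have p2' : ‖r₁ - a₁‖ ≤ η' := p2
    have q2' : ‖r₂ - a₂‖ ≤ η' := by
      have := q2
      simpa [hr₂, ha₂] using this
    have hx : ‖r₁ * conj r₂‖ ≤ (B + 1) * (B + 1) := by
      rw [norm_mul, RCLike.norm_conj]
      exact mul_le_mul b1 b2 (norm_nonneg _) (by linarith)
    have hy : ‖a₁ * conj a₂‖ ≤ (B + 1) * (B + 1) := by
      rw [norm_mul, RCLike.norm_conj]
      exact mul_le_mul b3 b4 (norm_nonneg _) (by linarith)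
    have hxy : ‖r₁ * conj r₂ - a₁ * conj a₂‖ ≤ (2 * B + 1) * η' := by
      have e : r₁ * conj r₂ - a₁ * conj a₂ = r₁ * conj (r₂ - a₂) + (r₁ - a₁) * conj a₂ := by
        rw [map_sub]; ring
      rw [e]
      refine (norm_add_le _ _).trans ?_
      rw [norm_mul, norm_mul, RCLike.norm_conj, RCLike.norm_conj]
      have c1 : ‖r₁‖ * ‖r₂ - a₂‖ ≤ B * η' := mul_le_mul p1 q2' (norm_nonneg _) hB0.le
      have c2 : ‖r₁ - a₁‖ * ‖a₂‖ ≤ η' * (B + 1) := mul_le_mul p2' b4 (norm_nonneg _) hη'0.le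
      linarith
    have hBB : 1 ≤ (B + 1) * (B + 1) := by nlinarith
    have hkk' : k ≤ kk := by
      have : (k : ℝ) ≤ kk := hk.trans hkk
      exact_mod_cast this
    have hmain := pow_diff hBB hx hy k
    refine hmain.trans ?_
    have h6 : (k : ℝ) * ((B + 1) * (B + 1)) ^ k ≤ kk * ((B + 1) * (B + 1)) ^ kk := by
      have h7 : (k : ℝ) ≤ kk := by exact_mod_cast hkk'
      have h8 : ((B + 1) * (B + 1)) ^ k ≤ ((B + 1) * (B + 1)) ^ kk := pow_le_pow_right₀ hBB hkk'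
      exact mul_le_mul h7 h8 (by positivity) (by positivity)
    calc (k : ℝ) * ((B + 1) * (B + 1)) ^ k * ‖r₁ * conj r₂ - a₁ * conj a₂‖
        ≤ (kk * ((B + 1) * (B + 1)) ^ kk) * ((2 * B + 1) * η') := mul_le_mul h6 hxy (norm_nonneg _) (by positivity)
      _ = (D - 1) * η' := by rw [hD]; ring
      _ ≤ D * η' := by nlinarith
      _ ≤ η := hη'3

end

end Pool.Agent.H444.MH
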