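import Pool.Agent.H444.MH.Asm2

set_option autoImplicit false

namespace Pool.Agent.H444.MH

open Filter Topology MeasureTheory Complex Set
open Pool.Agent.Q97.UM
open scoped ComplexConjugate

noncomputable section

lemma int_union_le {g : ℝ → ℝ} (hg : Continuous g) (h0 : ∀ t, 0 ≤ g t) {a b : ℝ} {A B : Set ℝ} (hA : A ⊆ Icc a b)
    (hB : B ⊆ Icc a b) (mA : MeasurableSet A) (mB : MeasurableSet B) :
    ∫ t in A ∪ B, g t ≤ (∫ t in A, g t) + ∫ t in B, g t := by
  have iI : IntegrableOn g (Icc a b) := hg.integrableOn_Icc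
  have e : A ∪ B = A ∪ (B \ A) := by rw [union_diff_self]
  rw [e, setIntegral_union disjoint_sdiff_right (mB.diff mA) (iI.mono_set hA) (iI.mono_set (diff_subset.trans hB))]
  have : ∫ t in B \ A, g t ≤ ∫ t in B, g t := by
    apply setIntegral_mono_set (iI.mono_set hB)
    · exact Eventually.of_forall fun t => h0 t
    · exact Eventually.of_forall fun t ht => ht.1
  linarith

lemma int_sub_le {g : ℝ → ℝ} (hg : Continuous g) (h0 : ∀ t, 0 ≤ g t) {a b : ℝ} {A B : Set ℝ} (hB : B ⊆ Icc a b)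
    (hAB : A ⊆ B) : ∫ t in A, g t ≤ ∫ t in B, g t := by
  have iI : IntegrableOn g (Icc a b) := hg.integrableOn_Icc
  apply setIntegral_mono_set (iI.mono_set hB)
  · exact Eventually.of_forall fun t => h0 t
  · exact Eventually.of_forall fun t ht => hAB ht

/-- the near product is bounded in terms of the counting function and the singular sum -/
lemma Pn_bound {T : ℝ} (hT : 16 ≤ T) (hL : 0 < Real.log T) {M t K : ℝ} (hK : 0 ≤ K) (h : zt t ≠ 0) {u : ℂ} (hu : ‖u‖ ≤ K) :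
    ‖Pn T M t u‖ ≤ Real.exp (Real.log (1 + K) * cnt T M t + SL T t) := by
  have h1 : ∀ s ∈ nr T M t, ‖1 - u / xi T t s‖ ≤
      Real.exp (Real.log (1 + K) + max 0 (Real.log (1 / (Real.log T * ‖s - (1 / 2 + t * I)‖)))) := by
    intro s hs
    have hx := xi_ne hT hL (nr_sub hs) h
    have hx0 : 0 < ‖xi T t s‖ := norm_pos_iff.2 hx
    rw [← xi_norm hL t s, Real.exp_add, Real.exp_log (by linarith)]
    have e : Real.exp (max 0 (Real.log (1 / ‖xi T t s‖))) = max 1 (1 / ‖xi T t s‖) := by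
      rw [Real.exp_monotone.map_max, Real.exp_zero, Real.exp_log (by positivity)]
    rw [e]
    have a1 : ‖1 - u / xi T t s‖ ≤ 1 + K * (1 / ‖xi T t s‖) := by
      refine (norm_sub_le _ _).trans ?_
      rw [norm_one, norm_div, div_eq_mul_one_div]
      have : 0 ≤ 1 / ‖xi T t s‖ := by positivity
      gcongr
    have a2 : 1 ≤ max 1 (1 / ‖xi T t s‖) := le_max_left _ _
    have a3 : 1 / ‖xi T t s‖ ≤ max 1 (1 / ‖xi T t s‖) := le_max_right _ _
    nlinarith
  unfold Pn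
  rw [norm_prod]
  calc ∏ s ∈ nr T M t, ‖(1 - u / xi T t s) ^ mz s‖
      ≤ ∏ s ∈ nr T M t, Real.exp ((mz s : ℝ) * (Real.log (1 + K) + max 0 (Real.log (1 / (Real.log T * ‖s - (1 / 2 + t * I)‖))))) := by
        refine Finset.prod_le_prod (fun s _ => norm_nonneg _) fun s hs => ?_
        rw [norm_pow, Real.exp_nat_mul]
        exact pow_le_pow_left₀ (norm_nonneg _) (h1 s hs) _
    _ = Real.exp (∑ s ∈ nr T M t, (mz s : ℝ) * (Real.log (1 + K) + max 0 (Real.log (1 / (Real.log T * ‖s - (1 / 2 + t * I)‖))))) := by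
        rw [Real.exp_sum]
    _ ≤ Real.exp (Real.log (1 + K) * cnt T M t + SL T t) := by
        apply Real.exp_le_exp.2
        have e1 : ∑ s ∈ nr T M t, (mz s : ℝ) * (Real.log (1 + K) + max 0 (Real.log (1 / (Real.log T * ‖s - (1 / 2 + t * I)‖)))) =
            Real.log (1 + K) * (∑ s ∈ nr T M t, (mz s : ℝ)) +
              ∑ s ∈ nr T M t, (mz s : ℝ) * max 0 (Real.log (1 / (Real.log T * ‖s - (1 / 2 + t * I)‖))) := by
          rw [Finset.mul_sum, ← Finset.sum_add_distrib]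
          exact Finset.sum_congr rfl fun s _ => by ring
        have e2 : ∑ s ∈ nr T M t, (mz s : ℝ) = cnt T M t := rfl
        have e3 : ∑ s ∈ nr T M t, (mz s : ℝ) * max 0 (Real.log (1 / (Real.log T * ‖s - (1 / 2 + t * I)‖))) ≤ SL T t := by
          unfold SL
          exact Finset.sum_le_sum_of_subset_of_nonneg (fun s hs => nr_sub hs)
            fun s _ _ => mul_nonneg (Nat.cast_nonneg _) (le_max_left _ _)
        rw [e1, e2]
        linarith

/-- the majorant of `log |ratio|` -/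
def VV (δ C3 K : ℝ) (Y M : ℕ) (T t : ℝ) : ℝ :=
  Real.log (1 + K) * (Dv T M t + M / Real.pi) + (SS δ T t + SL T t) + K * (GG δ C3 Y M T t + 1) + K ^ 2 * far M T t + 1

/-- the majorant of the error -/
def WW (δ C3 K : ℝ) (Y M : ℕ) (T t : ℝ) : ℝ := K * GG δ C3 Y M T t + K ^ 2 * far M T t

/-- pointwise bound of the ratio -/
lemma ratio_bound {δ C3 K C T t : ℝ} (hT : 16 ≤ T) (hL : 0 < Real.log T) (hK : 0 ≤ K) {Y M : ℕ} {A u E : ℂ}
    (hz : zt t ≠ 0) (hu : ‖u‖ ≤ K) (hC1 : C / Real.log T ≤ 1 / 2) (hC2 : C * K ^ 2 / Real.log T ≤ 1) (hC0 : 0 ≤ C)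
    (hA1 : |A.im + 1 / 2| ≤ C / Real.log T) (hA2 : |A.re| ≤ GG δ C3 Y M T t)
    (hE : ‖E‖ ≤ ‖u‖ ^ 2 * far M T t + C * ‖u‖ ^ 2 / Real.log T) :
    ‖Pn T M t u * cexp (A * u + E)‖ ≤ Real.exp (VV δ C3 K Y M T t) := by
  have h1 := Pn_bound hT hL (M := M) hK hz hu
  have h2 : ‖cexp (A * u + E)‖ ≤ Real.exp (K * (GG δ C3 Y M T t + 1) + (K ^ 2 * far M T t + 1)) := by
    rw [Complex.norm_exp]
    apply Real.exp_le_exp.2
    refine (Complex.re_le_norm _).trans ((norm_add_le _ _).trans ?_)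
    have a1 : ‖A‖ ≤ GG δ C3 Y M T t + 1 := by
      refine (Complex.norm_le_abs_re_add_abs_im A).trans ?_
      have : |A.im| ≤ 1 := by
        have := abs_le.1 (hA1.trans hC1)
        rw [abs_le]
        constructor <;> linarith [this.1, this.2]
      linarith
    have a2 : ‖A * u‖ ≤ K * (GG δ C3 Y M T t + 1) := by
      rw [norm_mul, mul_comm]
      exact mul_le_mul hu a1 (norm_nonneg _) hK
    have a3 : ‖u‖ ^ 2 ≤ K ^ 2 := pow_le_pow_left₀ (norm_nonneg _) hu 2
    have a4 : ‖E‖ ≤ K ^ 2 * far M T t + 1 := by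
      refine hE.trans ?_
      have b1 := mul_le_mul_of_nonneg_right a3 (far_nn M T t)
      have b2 : C * ‖u‖ ^ 2 / Real.log T ≤ C * K ^ 2 / Real.log T := by gcongr
      linarith
    linarith
  have h3 : cnt T M t ≤ Dv T M t + M / Real.pi := by
    unfold Dv
    have := le_abs_self (cnt T M t - M / Real.pi)
    linarith
  have h4 : 0 ≤ Real.log (1 + K) := Real.log_nonneg (by linarith)
  have h5 := SS_nn δ T t
  rw [norm_mul]
  calc ‖Pn T M t u‖ * ‖cexp (A * u + E)‖ ≤ Real.exp (Real.log (1 + K) * cnt T M t + SL T t) *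
        Real.exp (K * (GG δ C3 Y M T t + 1) + (K ^ 2 * far M T t + 1)) :=
        mul_le_mul h1 h2 (norm_nonneg _) (Real.exp_pos _).le
    _ = Real.exp (Real.log (1 + K) * cnt T M t + SL T t + (K * (GG δ C3 Y M T t + 1) + (K ^ 2 * far M T t + 1))) := by
        rw [← Real.exp_add]
    _ ≤ _ := by
        apply Real.exp_le_exp.2
        unfold VV
        have := mul_le_mul_of_nonneg_left h3 h4
        linarith

/-- pointwise bound of the difference -/
lemma diff_bound {δ C3 K C T t w₀ B : ℝ} (hK : 0 ≤ K) {Y M : ℕ} {A u E r : ℂ}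
    (hu : ‖u‖ ≤ K) (hC : (C * K + C * K ^ 2) / Real.log T ≤ w₀) (hL : 0 < Real.log T) (hC0 : 0 ≤ C)
    (hA1 : |A.im + 1 / 2| ≤ C / Real.log T) (hA2 : |A.re| ≤ GG δ C3 Y M T t)
    (hE : ‖E‖ ≤ ‖u‖ ^ 2 * far M T t + C * ‖u‖ ^ 2 / Real.log T) (hW : WW δ C3 K Y M T t ≤ w₀) (hw : w₀ ≤ 1 / 2)
    (hr : r = Pn T M t u * cexp (A * u + E)) (hB : ‖r‖ ≤ B) :
    ‖r - cexp (-(I * u / 2)) * Pn T M t u‖ ≤ B * (4 * w₀) := by
  set z : ℂ := (A + I / 2) * u + E with hz
  have e1 : cexp (-(I * u / 2)) * Pn T M t u = r * cexp (-z) := by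
    rw [hr, mul_assoc, ← Complex.exp_add, mul_comm]
    congr 2
    rw [hz]; ring
  have hzn : ‖z‖ ≤ 2 * w₀ := by
    have a1 : ‖A + I / 2‖ ≤ GG δ C3 Y M T t + C / Real.log T := by
      refine (Complex.norm_le_abs_re_add_abs_im _).trans ?_
      have b1 : (A + I / 2).re = A.re := by simp
      have b2 : (A + I / 2).im = A.im + 1 / 2 := by simp
      rw [b1, b2]
      linarith
    have a2 : ‖(A + I / 2) * u‖ ≤ (GG δ C3 Y M T t + C / Real.log T) * K := by
      rw [norm_mul]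
      exact mul_le_mul a1 hu (norm_nonneg _) ((norm_nonneg _).trans a1)
    have a3 : ‖u‖ ^ 2 ≤ K ^ 2 := pow_le_pow_left₀ (norm_nonneg _) hu 2
    have a4 : ‖E‖ ≤ K ^ 2 * far M T t + C * K ^ 2 / Real.log T := by
      refine hE.trans ?_
      have b1 := mul_le_mul_of_nonneg_right a3 (far_nn M T t)
      have b2 : C * ‖u‖ ^ 2 / Real.log T ≤ C * K ^ 2 / Real.log T := by gcongr
      linarith
    have a5 : (C * K + C * K ^ 2) / Real.log T = C / Real.log T * K + C * K ^ 2 / Real.log T := by ring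
    rw [a5] at hC
    unfold WW at hW
    calc ‖z‖ ≤ ‖(A + I / 2) * u‖ + ‖E‖ := norm_add_le _ _
      _ ≤ 2 * w₀ := by linarith
  have hz1 : ‖-z‖ ≤ 1 := by rw [norm_neg]; linarith
  have h1 := Complex.norm_exp_sub_one_le hz1
  rw [norm_neg] at h1
  rw [e1]
  have e2 : r - r * cexp (-z) = -(r * (cexp (-z) - 1)) := by ring
  rw [e2, norm_neg, norm_mul]
  have hB0 : 0 ≤ B := (norm_nonneg _).trans hB
  calc ‖r‖ * ‖cexp (-z) - 1‖ ≤ B * (2 * ‖z‖) := mul_le_mul hB h1 (norm_nonneg _) hB0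
    _ ≤ B * (4 * w₀) := by
      apply mul_le_mul_of_nonneg_left _ hB0
      linarith

end

end Pool.Agent.H444.MH
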