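import Pool.Agent.H444.MH.Had

set_option autoImplicit false

namespace Pool.Agent.H444.MH

open Filter Topology MeasureTheory Complex Set
open Pool.Agent.Q97.UM
open scoped ComplexConjugate

noncomputable section

lemma VV_rel {δ C3 C C1 CF K A : ℝ} (hK : 0 ≤ K)
    (hLLN : ∀ H : ℝ, 1 ≤ H → RelW (fun T t => |cnt T H t - H / Real.pi|) (C * Real.sqrt H))
    (hFAR : ∀ M : ℝ, 1 ≤ M → RelW (far M) (CF / M))
    (hONE : RelW (fun T t => SS δ T t + SL T t) C1) {Y M : ℕ} (hM : 1 ≤ M) (hG : RelN (GG δ C3 Y M) A) :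
    RelN (VV δ C3 K Y M) (Real.log (1 + K) * (C * Real.sqrt M + 2 * (M / Real.pi)) + C1 + K * (A + 2 * 1) + K ^ 2 * (CF / M) + 2 * 1) := by
  have hM1 : (1 : ℝ) ≤ M := by exact_mod_cast hM
  have hl : 0 ≤ Real.log (1 + K) := Real.log_nonneg (by linarith)
  exact ((((((hLLN M hM1).toN.add (RelN.const (c := (M : ℝ) / Real.pi) (by positivity))).smul hl).add hONE.toN).add
    ((hG.add (RelN.const (c := 1) (by norm_num))).smul hK)).add ((hFAR M hM1).toN.smul (c := K ^ 2) (by positivity))).add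
    (RelN.const (c := 1) (by norm_num))

lemma WW_rel {δ C3 CF K A : ℝ} (hK : 0 ≤ K) (hFAR : ∀ M : ℝ, 1 ≤ M → RelW (far M) (CF / M))
    {Y M : ℕ} (hM : 1 ≤ M) (hG : RelN (GG δ C3 Y M) A) :
    RelN (WW δ C3 K Y M) (K * A + K ^ 2 * (CF / M)) := by
  have hM1 : (1 : ℝ) ≤ M := by exact_mod_cast hM
  exact (hG.smul hK).add ((hFAR M hM1).toN.smul (c := K ^ 2) (by positivity))

/-- the zeros on the critical line, seen from a shifted point -/
def ZS (T y : ℝ) : Set ℝ := ((ZD T).image (fun s => s.im - y) : Finset ℝ)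

lemma ZS_spec {T y t : ℝ} (hT : 16 ≤ T) (h1 : T ≤ t) (h2 : t ≤ 2 * T) (hy0 : 0 ≤ y) (hy : y ≤ T) (h : t ∉ ZS T y) :
    zt (t + y) ≠ 0 := by
  intro h0
  apply h
  unfold ZS
  rw [Finset.coe_image]
  refine ⟨1 / 2 + ((t + y : ℝ) : ℂ) * I, ?_, ?_⟩
  · rw [Finset.mem_coe, mem_ZD hT]
    have hre : (1 / 2 + ((t + y : ℝ) : ℂ) * I).re = 1 / 2 := by simp
    have him : (1 / 2 + ((t + y : ℝ) : ℂ) * I).im = t + y := by simp
    rw [hre, him]
    exact ⟨by norm_num, by norm_num, by linarith, by linarith, h0⟩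
  · simp

lemma ZS_null (T y : ℝ) : volume (ZS T y) = 0 := (Finset.finite_toSet _).measure_zero _

lemma ZS_meas (T y : ℝ) : MeasurableSet (ZS T y) := (Finset.finite_toSet _).measurableSet

/-- the mass of the exceptional set -/
lemma mass {T ε A₁ A₂ A₃ θ : ℝ} (hT16 : 16 ≤ T) (hLT : 8 * Real.log T ≤ T) (hL : 100 ≤ Real.log T) (hθ : θ ≤ 1 / 40)
    (hedge : 6 * Real.log T * T ^ (1 / 40 : ℝ) ≤ A₃ * T) (hA : A₁ + A₂ + A₃ ≤ ε / 2) {S₁ S₂ F : Set ℝ}
    (m1 : MeasurableSet S₁) (m2 : MeasurableSet S₂) (mF : MeasurableSet F) (hF : volume F = 0)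
    {N : ℕ} (hN : (N : ℝ) ≤ T ^ θ) (b : ℕ → ℂ)
    (h1 : ∫ t in S₁ ∩ Icc (T + 3 * Real.log T) (2 * T - 3 * Real.log T), ‖dp N b t‖ ^ 2 ≤ A₁ * T * N2 N b)
    (h2 : ∫ t in S₂ ∩ Icc (T + 3 * Real.log T) (2 * T - 3 * Real.log T), ‖dp N b t‖ ^ 2 ≤ A₂ * T * N2 N b) :
    ∫ t in Icc T (2 * T) ∩ (Iio (T + 3 * Real.log T) ∪ Ioi (2 * T - 3 * Real.log T) ∪ S₁ ∪ S₂ ∪ F), ‖dp N b t‖ ^ 2 ≤
      ε * ∫ t in T..(2 * T), ‖dp N b t‖ ^ 2 := by
  set a : ℝ := T + 3 * Real.log T with ha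
  set c : ℝ := 2 * T - 3 * Real.log T with hc
  have hcont : Continuous fun t => ‖dp N b t‖ ^ 2 := by
    have := dp_cont N b
    fun_prop
  have h0 : ∀ t, 0 ≤ ‖dp N b t‖ ^ 2 := fun t => sq_nonneg _
  have hN2 := N2_nonneg N b
  have hT0 : 0 < T := by linarith
  have hL0 : 0 < Real.log T := by linarith
  have hN40 : (N : ℝ) ≤ T ^ (1 / 40 : ℝ) := hN.trans (Real.rpow_le_rpow_of_exponent_le (by linarith) hθ)
  have hN4 : (N : ℝ) ≤ T ^ (1 / 4 : ℝ) := hN.trans (Real.rpow_le_rpow_of_exponent_le (by linarith) (by linarith))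
  have hMVL := (Pool.Agent.Q84.UM.t_MVL T hT16 N hN4 b).1
  have hpt : ∀ t, ‖dp N b t‖ ^ 2 ≤ T ^ (1 / 40 : ℝ) * N2 N b := fun t =>
    ((Pool.Agent.Q84.UM.t_DPM.2.2 N b t).1).trans (mul_le_mul_of_nonneg_right hN40 hN2)
  -- edges
  have hed : ∀ x y : ℝ, x ≤ y → y - x ≤ 3 * Real.log T → ∫ t in Icc x y, ‖dp N b t‖ ^ 2 ≤
      3 * Real.log T * (T ^ (1 / 40 : ℝ) * N2 N b) := by
    intro x y hxy hyx
    have hb := norm_setIntegral_le_of_norm_le_const (μ := volume) (s := Icc x y) (f := fun t => ‖dp N b t‖ ^ 2)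
      (C := T ^ (1 / 40 : ℝ) * N2 N b) (by rw [Real.volume_Icc]; exact ENNReal.ofReal_lt_top) (fun t _ => by
        rw [Real.norm_of_nonneg (h0 t)]; exact hpt t)
    have hvol : volume.real (Icc x y) = y - x := by
      rw [Real.volume_real_Icc_of_le hxy]
    rw [hvol] at hb
    have hnn : 0 ≤ T ^ (1 / 40 : ℝ) * N2 N b := by positivity
    calc ∫ t in Icc x y, ‖dp N b t‖ ^ 2 ≤ ‖∫ t in Icc x y, ‖dp N b t‖ ^ 2‖ := Real.le_norm_self _
      _ ≤ T ^ (1 / 40 : ℝ) * N2 N b * (y - x) := hb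
      _ ≤ T ^ (1 / 40 : ℝ) * N2 N b * (3 * Real.log T) := mul_le_mul_of_nonneg_left hyx hnn
      _ = _ := by ring
  have e1 := hed T a (by linarith) (by linarith)
  have e2 := hed c (2 * T) (by linarith) (by linarith)
  set X₁ : Set ℝ := Icc T a with hX₁
  set X₂ : Set ℝ := Icc c (2 * T) with hX₂
  set X₃ : Set ℝ := S₁ ∩ Icc a c with hX₃
  set X₄ : Set ℝ := S₂ ∩ Icc a c with hX₄
  set X₅ : Set ℝ := F ∩ Icc T (2 * T) with hX₅
  have s1 : X₁ ⊆ Icc T (2 * T) := Icc_subset_Icc le_rfl (by linarith)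
  have s2 : X₂ ⊆ Icc T (2 * T) := Icc_subset_Icc (by linarith) le_rfl
  have sI : Icc a c ⊆ Icc T (2 * T) := Icc_subset_Icc (by linarith) (by linarith)
  have s3 : X₃ ⊆ Icc T (2 * T) := inter_subset_right.trans sI
  have s4 : X₄ ⊆ Icc T (2 * T) := inter_subset_right.trans sI
  have s5 : X₅ ⊆ Icc T (2 * T) := inter_subset_right
  have mX1 : MeasurableSet X₁ := measurableSet_Icc
  have mX2 : MeasurableSet X₂ := measurableSet_Icc
  have mX3 : MeasurableSet X₃ := m1.inter measurableSet_Icc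
  have mX4 : MeasurableSet X₄ := m2.inter measurableSet_Icc
  have mX5 : MeasurableSet X₅ := mF.inter measurableSet_Icc
  have hsub : Icc T (2 * T) ∩ (Iio a ∪ Ioi c ∪ S₁ ∪ S₂ ∪ F) ⊆ (((X₁ ∪ X₂) ∪ X₃) ∪ X₄) ∪ X₅ := by
    rintro t ⟨ht, hh⟩
    by_cases q1 : t ≤ a
    · exact Or.inl (Or.inl (Or.inl (Or.inl ⟨ht.1, q1⟩)))
    by_cases q2 : c ≤ t
    · exact Or.inl (Or.inl (Or.inl (Or.inr ⟨q2, ht.2⟩)))
    push Not at q1 q2
    rcases hh with (((h | h) | h) | h) | h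
    · exact absurd h (not_lt.2 q1.le)
    · exact absurd h (not_lt.2 q2.le)
    · exact Or.inl (Or.inl (Or.inr ⟨h, q1.le, q2.le⟩))
    · exact Or.inl (Or.inr ⟨h, q1.le, q2.le⟩)
    · exact Or.inr ⟨h, ht⟩
  have u1 := int_union_le hcont h0 s1 s2 mX1 mX2
  have u2 := int_union_le hcont h0 (union_subset s1 s2) s3 (mX1.union mX2) mX3
  have u3 := int_union_le hcont h0 (union_subset (union_subset s1 s2) s3) s4 ((mX1.union mX2).union mX3) mX4
  have u4 := int_union_le hcont h0 (union_subset (union_subset (union_subset s1 s2) s3) s4) s5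
    (((mX1.union mX2).union mX3).union mX4) mX5
  have u5 := int_sub_le hcont h0 (union_subset (union_subset (union_subset (union_subset s1 s2) s3) s4) s5) hsub
  have hX5 : ∫ t in X₅, ‖dp N b t‖ ^ 2 = 0 := by
    apply setIntegral_measure_zero
    exact measure_mono_null inter_subset_left hF
  have hfin : A₁ * T * N2 N b + A₂ * T * N2 N b + 2 * (3 * Real.log T * (T ^ (1 / 40 : ℝ) * N2 N b)) ≤ ε * (T / 2 * N2 N b) := by
    have q : 2 * (3 * Real.log T * (T ^ (1 / 40 : ℝ) * N2 N b)) ≤ A₃ * T * N2 N b := by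
      calc 2 * (3 * Real.log T * (T ^ (1 / 40 : ℝ) * N2 N b)) = (6 * Real.log T * T ^ (1 / 40 : ℝ)) * N2 N b := by ring
        _ ≤ A₃ * T * N2 N b := mul_le_mul_of_nonneg_right hedge hN2
    have q2 : (A₁ + A₂ + A₃) * (T * N2 N b) ≤ ε / 2 * (T * N2 N b) := mul_le_mul_of_nonneg_right hA (by positivity)
    linarith
  by_cases hε : 0 ≤ ε
  · have := mul_le_mul_of_nonneg_left hMVL hε
    linarith
  · push Not at hε
    -- negative ε: then the left-hand side bound forces everything to vanish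
    have hI0 : 0 ≤ ∫ t in T..(2 * T), ‖dp N b t‖ ^ 2 := by
      have : 0 ≤ T / 2 * N2 N b := by positivity
      linarith
    have hup := (Pool.Agent.Q84.UM.t_MVL T hT16 N hN4 b).2
    have hlhs : 0 ≤ ∫ t in Icc T (2 * T) ∩ (Iio a ∪ Ioi c ∪ S₁ ∪ S₂ ∪ F), ‖dp N b t‖ ^ 2 := integral_nonneg h0
    have hneg : ε * (T / 2 * N2 N b) ≤ 0 := mul_nonpos_of_nonpos_of_nonneg hε.le (by positivity)
    have hzero : ε * (T / 2 * N2 N b) = 0 := by linarith
    have hN20 : N2 N b = 0 := by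
      rcases mul_eq_zero.1 hzero with h | h
      · exact absurd h hε.ne
      · rcases mul_eq_zero.1 h with h | h
        · exact absurd h (by positivity)
        · exact h
    have hup0 : ∫ t in T..(2 * T), ‖dp N b t‖ ^ 2 ≤ 0 := by rw [hN20, mul_zero] at hup; exact hup
    have hI : ∫ t in T..(2 * T), ‖dp N b t‖ ^ 2 = 0 := le_antisymm hup0 hI0
    rw [hI, mul_zero]
    linarith

end

end Pool.Agent.H444.MH
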