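import Pool.Agent.H444.MH.Had2

set_option autoImplicit false

namespace Pool.Agent.H444.MH

open Filter Topology MeasureTheory Complex Set
open Pool.Agent.Q97.UM
open scoped ComplexConjugate

noncomputable section

lemma rpow_log_small {A₃ : ℝ} (hA : 0 < A₃) : ∀ᶠ T : ℝ in atTop, 6 * Real.log T * T ^ (1 / 40 : ℝ) ≤ A₃ * T := by
  have h1 : ∀ᶠ T : ℝ in atTop, Real.log T ≤ A₃ / 6 * T ^ (1 / 2 : ℝ) := by
    have h := (isLittleO_log_rpow_atTop (by norm_num : (0 : ℝ) < 1 / 2)).bound (by positivity : (0 : ℝ) < A₃ / 6)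
    filter_upwards [h, eventually_ge_atTop 1] with T hT hT1
    rw [Real.norm_of_nonneg (Real.log_nonneg hT1), Real.norm_of_nonneg (by positivity)] at hT
    exact hT
  filter_upwards [h1, eventually_ge_atTop 1] with T hT hT1
  have hT0 : 0 < T := by linarith
  have h2 : (T : ℝ) ^ (1 / 40 : ℝ) ≤ T ^ (1 / 2 : ℝ) := Real.rpow_le_rpow_of_exponent_le hT1 (by norm_num)
  have h3 : (T : ℝ) ^ (1 / 2 : ℝ) * T ^ (1 / 2 : ℝ) = T := by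
    rw [← Real.rpow_add hT0]; norm_num
  have h4 : 0 < (T : ℝ) ^ (1 / 2 : ℝ) := by positivity
  calc 6 * Real.log T * T ^ (1 / 40 : ℝ) ≤ 6 * (A₃ / 6 * T ^ (1 / 2 : ℝ)) * T ^ (1 / 2 : ℝ) := by
        have : 0 ≤ Real.log T := Real.log_nonneg hT1
        gcongr
    _ = A₃ * (T ^ (1 / 2 : ℝ) * T ^ (1 / 2 : ℝ)) := by ring
    _ = A₃ * T := by rw [h3]

/-- THE MICROSCOPIC HADAMARD PRODUCT relative to every Dirichlet polynomial -/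
theorem had0 (hLLN : S_LLN) (hFAR : S_FAR) (hONE : S_ONE) (hINC : S_INC) (hLEX : S_LEX) (hCMB : S_CMB) (hCPL : S_CPL)
    (K ε : ℝ) (hK : 0 < K) (hε : 0 < ε) : ∃ B : ℝ, 1 ≤ B ∧ ∀ η : ℝ, 0 < η → ∃ M₀ : ℕ, ∀ M : ℕ, M₀ ≤ M →
    ∃ θ : ℝ, 0 < θ ∧ ∀ᶠ T : ℝ in atTop, ∃ E : Set ℝ, MeasurableSet E ∧ E ⊆ Icc T (2 * T) ∧
      (∀ N : ℕ, (N : ℝ) ≤ T ^ θ → ∀ b : ℕ → ℂ, ∫ t in E, ‖dp N b t‖ ^ 2 ≤ ε * ∫ t in T..(2 * T), ‖dp N b t‖ ^ 2) ∧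
      ∀ t ∈ Icc T (2 * T), t ∉ E → zt t ≠ 0 ∧ ∀ u : ℂ, ‖u‖ ≤ K →
        ‖riemannZeta (1 / 2 + t * I + I * u / (Real.log T : ℂ)) / zt t‖ ≤ B ∧
        ‖riemannZeta (1 / 2 + t * I + I * u / (Real.log T : ℂ)) / zt t - cexp (-(I * u / 2)) * Pn T M t u‖ ≤ η := by
  obtain ⟨C, hC0, hdet⟩ := detG hLEX hCMB
  obtain ⟨δ, C3, hδ, hC3, hcpl, ⟨C1, hC1, hONE'⟩, hGG⟩ := GG_rel hLLN hFAR hONE hINC hCPL
  obtain ⟨CL, hCL, hLLN'⟩ := hLLN
  obtain ⟨CF, hCF, hFAR'⟩ := hFAR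
  -- the fixed scale
  obtain ⟨M₁, hM₁⟩ := hGG 1 one_pos
  obtain ⟨m₂, hm₂⟩ := exists_nat_ge (2 * K)
  obtain ⟨Y₀, hY₀1, hY₀2, hY₀3⟩ := hM₁ (max M₁ m₂) (le_max_left _ _)
  set N₀ : ℕ := max M₁ m₂ with hN₀
  have hN₀K : 2 * K ≤ N₀ := hm₂.trans (by exact_mod_cast le_max_right _ _)
  have hV := VV_rel hK.le hLLN' hFAR' hONE' (by omega : 1 ≤ N₀) hY₀3
  set AV : ℝ := Real.log (1 + K) * (CL * Real.sqrt N₀ + 2 * (N₀ / Real.pi)) + C1 + K * (1 + 2 * 1) + K ^ 2 * (CF / N₀) + 2 * 1 with hAV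
  have hl : 0 ≤ Real.log (1 + K) := Real.log_nonneg (by linarith)
  have hAV0 : 0 < AV := by positivity
  set V₀ : ℝ := 8 * AV / ε with hV₀
  have hV₀0 : 0 < V₀ := by positivity
  refine ⟨Real.exp V₀, Real.one_le_exp hV₀0.le, fun η hη => ?_⟩
  set B : ℝ := Real.exp V₀ with hB
  have hB0 : 0 < B := Real.exp_pos _
  set w₀ : ℝ := min (1 / 2) (η / (4 * B)) with hw₀
  have hw₀0 : 0 < w₀ := lt_min (by norm_num) (by positivity)
  have hw₀1 : w₀ ≤ 1 / 2 := min_le_left _ _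
  have hw₀2 : B * (4 * w₀) ≤ η := by
    have : w₀ ≤ η / (4 * B) := min_le_right _ _
    calc B * (4 * w₀) ≤ B * (4 * (η / (4 * B))) := by gcongr
      _ = η := by field_simp
  obtain ⟨M₂, hM₂⟩ := hGG (w₀ * ε / (16 * K)) (by positivity)
  obtain ⟨m₃, hm₃⟩ := exists_nat_ge (16 * K ^ 2 * CF / (w₀ * ε))
  refine ⟨max M₂ (max m₂ m₃), fun M hM => ?_⟩
  have hMM2 : M₂ ≤ M := (le_max_left _ _).trans hM
  have hMm2 : m₂ ≤ M := ((le_max_left _ _).trans (le_max_right _ _)).trans hM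
  have hMm3 : m₃ ≤ M := ((le_max_right _ _).trans (le_max_right _ _)).trans hM
  obtain ⟨Y, hY1, hY2, hY3⟩ := hM₂ M hMM2
  have hMK : 2 * K ≤ M := hm₂.trans (by exact_mod_cast hMm2)
  have hM0 : (0 : ℝ) < M := by linarith
  have hMC : 16 * K ^ 2 * CF / (w₀ * ε) ≤ M := hm₃.trans (by exact_mod_cast hMm3)
  have hW := WW_rel hK.le hFAR' (by omega : 1 ≤ M) hY3
  have hWmean : K * (w₀ * ε / (16 * K)) + K ^ 2 * (CF / M) ≤ w₀ * ε / 8 := by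
    have a1 : K * (w₀ * ε / (16 * K)) = w₀ * ε / 16 := by field_simp
    have a2 : K ^ 2 * (CF / M) ≤ w₀ * ε / 16 := by
      rw [div_le_iff₀ (by positivity)] at hMC
      rw [← mul_div_assoc, div_le_iff₀ hM0]
      linarith
    linarith
  have hW' := hW.mono hWmean
  obtain ⟨θ₁, hθ₁0, hθ₁, hmark1⟩ := hV.markov hV₀0
  obtain ⟨θ₂, hθ₂0, hθ₂, hmark2⟩ := hW'.markov hw₀0
  have hdet1 := hdet δ C3 hC3 hcpl Y₀ N₀ hY₀1 hY₀2
  have hdet2 := hdet δ C3 hC3 hcpl Y M hY1 hY2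
  have ev1 := Real.tendsto_log_atTop.eventually_ge_atTop (2 * C)
  have ev2 := Real.tendsto_log_atTop.eventually_ge_atTop (C * K ^ 2)
  have ev3 := Real.tendsto_log_atTop.eventually_ge_atTop ((C * K + C * K ^ 2) / w₀)
  have ev4 := Real.tendsto_log_atTop.eventually_ge_atTop ((Y₀ : ℝ) + Y)
  have ev5 := rpow_log_small (A₃ := ε / 4) (by positivity)
  refine ⟨min θ₁ θ₂, lt_min hθ₁0 hθ₂0, ?_⟩
  filter_upwards [hmark1, hmark2, hdet1, hdet2, log_ev, ev1, ev2, ev3, ev4, ev5] with T k1 k2 d1 d2 hlog v1 v2 v3 v4 v5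
  obtain ⟨hT16, hL, hLT⟩ := hlog
  have hL0 : 0 < Real.log T := by linarith
  obtain ⟨mS1, k1⟩ := k1
  obtain ⟨mS2, k2⟩ := k2
  set S₁ : Set ℝ := {t : ℝ | V₀ < VV δ C3 K Y₀ N₀ T t} with hS₁
  set S₂ : Set ℝ := {t : ℝ | w₀ < WW δ C3 K Y M T t} with hS₂
  set F : Set ℝ := ZS T 0 ∪ ZS T (Y₀ / Real.log T) ∪ ZS T (Y / Real.log T) with hF
  have mF : MeasurableSet F := ((ZS_meas T _).union (ZS_meas T _)).union (ZS_meas T _)
  have nF : volume F = 0 := by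
    rw [hF, measure_union_null_iff, measure_union_null_iff]
    exact ⟨⟨ZS_null _ _, ZS_null _ _⟩, ZS_null _ _⟩
  set E : Set ℝ := Icc T (2 * T) ∩ (Iio (T + 3 * Real.log T) ∪ Ioi (2 * T - 3 * Real.log T) ∪ S₁ ∪ S₂ ∪ F) with hE
  refine ⟨E, ?_, inter_subset_left, ?_, ?_⟩
  · exact measurableSet_Icc.inter ((((measurableSet_Iio.union measurableSet_Ioi).union mS1).union mS2).union mF)
  · intro N hN b
    have hT1 : (1 : ℝ) ≤ T := by linarith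
    have hN1 : (N : ℝ) ≤ T ^ θ₁ := hN.trans (Real.rpow_le_rpow_of_exponent_le hT1 (min_le_left _ _))
    have hN2 : (N : ℝ) ≤ T ^ θ₂ := hN.trans (Real.rpow_le_rpow_of_exponent_le hT1 (min_le_right _ _))
    refine mass hT16 hLT hL hθ₁ v5 ?_ mS1 mS2 mF nF hN1 b (k1 N hN1 b) (k2 N hN2 b)
    have a1 : AV / V₀ = ε / 8 := by rw [hV₀]; field_simp
    have a2 : w₀ * ε / 8 / w₀ = ε / 8 := by field_simp
    rw [a1, a2]
    linarith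
  · intro t ht htE
    have hnot : t ∉ (Iio (T + 3 * Real.log T) ∪ Ioi (2 * T - 3 * Real.log T) ∪ S₁ ∪ S₂ ∪ F) := fun h => htE ⟨ht, h⟩
    simp only [mem_union, not_or] at hnot
    obtain ⟨⟨⟨⟨_, _⟩, n1⟩, n2⟩, n3⟩ := hnot
    have hVt : VV δ C3 K Y₀ N₀ T t ≤ V₀ := not_lt.1 n1
    have hWt : WW δ C3 K Y M T t ≤ w₀ := not_lt.1 n2
    have n3' : t ∉ ZS T 0 ∧ t ∉ ZS T (Y₀ / Real.log T) ∧ t ∉ ZS T (Y / Real.log T) := by
      refine ⟨fun h => n3 (Or.inl (Or.inl h)), fun h => n3 (Or.inl (Or.inr h)), fun h => n3 (Or.inr h)⟩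
    have hY₀nn : (0 : ℝ) ≤ Y₀ := Nat.cast_nonneg _
    have hYnn : (0 : ℝ) ≤ Y := Nat.cast_nonneg _
    have hyb : ∀ y : ℝ, 0 ≤ y → y ≤ Y₀ + Y → 0 ≤ y / Real.log T ∧ y / Real.log T ≤ T := by
      intro y h1 h2
      refine ⟨by positivity, ?_⟩
      have : y / Real.log T ≤ 1 := (div_le_one hL0).2 (h2.trans v4)
      linarith
    have hz : zt t ≠ 0 := by
      have := ZS_spec hT16 ht.1 ht.2 le_rfl (by linarith) n3'.1
      rwa [add_zero] at this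
    have hz0 : zt (t + Y₀ / Real.log T) ≠ 0 := by
      obtain ⟨q1, q2⟩ := hyb Y₀ hY₀nn (by linarith)
      exact ZS_spec hT16 ht.1 ht.2 q1 q2 n3'.2.1
    have hzY : zt (t + Y / Real.log T) ≠ 0 := by
      obtain ⟨q1, q2⟩ := hyb Y hYnn (by linarith)
      exact ZS_spec hT16 ht.1 ht.2 q1 q2 n3'.2.2
    obtain ⟨A₀, a1, a2, a3⟩ := d1 t ht.1 ht.2 hz hz0
    obtain ⟨A, b1, b2, b3⟩ := d2 t ht.1 ht.2 hz hzY
    refine ⟨hz, fun u hu => ?_⟩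
    obtain ⟨E₀, c1, c2⟩ := a3 u (by linarith)
    obtain ⟨E₁, c3, c4⟩ := b3 u (by linarith)
    have r1 : riemannZeta (1 / 2 + t * I + I * u / (Real.log T : ℂ)) / zt t = Pn T N₀ t u * cexp (A₀ * u + E₀) := by
      rw [c2]; field_simp
    have r2 : riemannZeta (1 / 2 + t * I + I * u / (Real.log T : ℂ)) / zt t = Pn T M t u * cexp (A * u + E₁) := by
      rw [c4]; field_simp
    have hb1 : ‖riemannZeta (1 / 2 + t * I + I * u / (Real.log T : ℂ)) / zt t‖ ≤ B := by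
      rw [r1]
      refine (ratio_bound hT16 hL0 hK.le hz hu ?_ ?_ hC0 a1 a2 c1).trans (Real.exp_le_exp.2 hVt)
      · rw [div_le_iff₀ hL0]; linarith
      · exact (div_le_one hL0).2 v2
    refine ⟨hb1, ?_⟩
    refine (diff_bound hK.le hu ?_ hL0 hC0 b1 b2 c3 hWt hw₀1 r2 hb1).trans hw₀2
    rw [div_le_iff₀ hw₀0] at v3
    rw [div_le_iff₀ hL0]
    linarith

end

end Pool.Agent.H444.MH
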