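import Pool.Agent.H444.MH.Stm

set_option autoImplicit false

namespace Pool.Agent.H444.MH

open Filter Topology MeasureTheory Complex Set
open Pool.Agent.Q97.UM

lemma N2_nonneg (N : ℕ) (b : ℕ → ℂ) : 0 ≤ N2 N b := by
  unfold N2
  exact Finset.sum_nonneg fun n _ => by positivity

lemma dp_cont (N : ℕ) (b : ℕ → ℂ) : Continuous (dp N b) := (Pool.Agent.Q84.UM.t_DPM.2.2 N b 0).2

lemma dp_shift (N : ℕ) (b : ℕ → ℂ) (y : ℝ) : ∃ b' : ℕ → ℂ, N2 N b' = N2 N b ∧
    ∀ t : ℝ, dp N b t = dp N b' (t + y) := by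
  refine ⟨fun n => b n * (n : ℂ) ^ ((y : ℂ) * I), (Pool.Agent.Q84.UM.t_DPM.2.1 N b 0 y).2, fun t => ?_⟩
  have h := (Pool.Agent.Q84.UM.t_DPM.2.1 N b (t + y) y).1
  rw [add_sub_cancel_right] at h
  exact h

lemma log_ev : ∀ᶠ T : ℝ in atTop, 16 ≤ T ∧ 100 ≤ Real.log T ∧ 8 * Real.log T ≤ T := by
  have h1 := Real.tendsto_log_atTop.eventually_ge_atTop 100
  have h2 : ∀ᶠ T : ℝ in atTop, Real.log T / T ≤ 1 / 8 := by
    have := Real.isLittleO_log_id_atTop.tendsto_div_nhds_zero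
    exact this.eventually (eventually_le_nhds (by norm_num : (0 : ℝ) < 1 / 8))
  filter_upwards [h1, h2, eventually_ge_atTop 16] with T a b c
  refine ⟨c, a, ?_⟩
  rw [div_le_iff₀ (by linarith)] at b
  linarith

/-- restriction of a nonnegative integrable function to a subinterval -/
lemma sub_int {g : ℝ → ℝ} {a b c d : ℝ} (h0 : ∀ t, 0 ≤ g t) (hab : a ≤ b) (hcd : c ≤ d) (h1 : c ≤ a) (h2 : b ≤ d)
    (hi : IntervalIntegrable g volume c d) :
    IntervalIntegrable g volume a b ∧ ∫ t in a..b, g t ≤ ∫ t in c..d, g t := by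
  have hi' := hi.mono_set (a := c) (b := d) (c := a) (d := b) (by
    rw [uIcc_of_le hab, uIcc_of_le hcd]
    exact Icc_subset_Icc h1 h2)
  refine ⟨hi', ?_⟩
  exact intervalIntegral.integral_mono_interval h1 hab h2
    (Eventually.of_forall fun t => h0 t) hi

theorem RelW.shift {f : ℝ → ℝ → ℝ} {A : ℝ} (h : RelW f A) (Y : ℝ) :
    RelN (fun T t => f T (t + Y / Real.log T)) A := by
  obtain ⟨θ, h1, h2, h3⟩ := h
  refine ⟨θ, h1, h2, ?_⟩
  have hY : ∀ᶠ T : ℝ in atTop, |Y| ≤ Real.log T :=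
    Real.tendsto_log_atTop.eventually_ge_atTop |Y|
  filter_upwards [h3, log_ev, hY] with T hT hl hYT
  obtain ⟨f0, fm, hf⟩ := hT
  obtain ⟨hT16, hL, hLT⟩ := hl
  refine ⟨fun t => f0 _, fm.comp (measurable_id.add_const _), fun N hN b => ?_⟩
  set y : ℝ := Y / Real.log T with hy
  have hL0 : 0 < Real.log T := by linarith
  have hy1 : |y| ≤ 1 := by
    rw [hy, abs_div, abs_of_pos hL0]
    exact (div_le_one hL0).2 hYT
  obtain ⟨b', hb', hd⟩ := dp_shift N b y
  obtain ⟨i1, i2⟩ := hf N hN b'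
  have hy2 := abs_le.1 hy1
  obtain ⟨i3, i4⟩ := sub_int (a := T + 3 * Real.log T + y) (b := 2 * T - 3 * Real.log T + y)
    (fun t => mul_nonneg (f0 t) (sq_nonneg ‖dp N b' t‖))
    (by linarith) (by linarith) (by linarith) (by linarith) i1
  have e : (fun t => f T (t + y) * ‖dp N b t‖ ^ 2) =
      fun t => (fun t' => f T t' * ‖dp N b' t'‖ ^ 2) (t + y) := by
    funext t
    simp only [hd t]
  constructor
  · rw [e]
    have := i3.comp_add_right y
    simpa using this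
  · rw [e, intervalIntegral.integral_comp_add_right (fun t' => f T t' * ‖dp N b' t'‖ ^ 2) y]
    rw [hb'] at i2
    linarith

theorem RelW.toN {f : ℝ → ℝ → ℝ} {A : ℝ} (h : RelW f A) : RelN f A := by
  have := h.shift 0
  simpa using this

theorem RelN.add {f g : ℝ → ℝ → ℝ} {A B : ℝ} (hf : RelN f A) (hg : RelN g B) :
    RelN (fun T t => f T t + g T t) (A + B) := by
  obtain ⟨θ, h1, h2, h3⟩ := hf
  obtain ⟨θ', h1', h2', h3'⟩ := hg
  refine ⟨min θ θ', lt_min h1 h1', (min_le_left _ _).trans h2, ?_⟩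
  filter_upwards [h3, h3', log_ev] with T hT hT' hl
  obtain ⟨f0, fm, hf⟩ := hT
  obtain ⟨g0, gm, hg⟩ := hT'
  refine ⟨fun t => add_nonneg (f0 t) (g0 t), fm.add gm, fun N hN b => ?_⟩
  have hT1 : (1 : ℝ) ≤ T := by linarith [hl.1]
  obtain ⟨i1, i2⟩ := hf N (hN.trans (Real.rpow_le_rpow_of_exponent_le hT1 (min_le_left _ _))) b
  obtain ⟨j1, j2⟩ := hg N (hN.trans (Real.rpow_le_rpow_of_exponent_le hT1 (min_le_right _ _))) b
  have e : (fun t => (f T t + g T t) * ‖dp N b t‖ ^ 2) =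
      fun t => f T t * ‖dp N b t‖ ^ 2 + g T t * ‖dp N b t‖ ^ 2 := by
    funext t; ring
  refine ⟨by rw [e]; exact i1.add j1, ?_⟩
  rw [e, intervalIntegral.integral_add i1 j1]
  linarith

theorem RelN.smul {f : ℝ → ℝ → ℝ} {A : ℝ} (hf : RelN f A) {c : ℝ} (hc : 0 ≤ c) :
    RelN (fun T t => c * f T t) (c * A) := by
  obtain ⟨θ, h1, h2, h3⟩ := hf
  refine ⟨θ, h1, h2, ?_⟩
  filter_upwards [h3] with T hT
  obtain ⟨f0, fm, hf⟩ := hT
  refine ⟨fun t => mul_nonneg hc (f0 t), fm.const_mul c, fun N hN b => ?_⟩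
  obtain ⟨i1, i2⟩ := hf N hN b
  have e : (fun t => (c * f T t) * ‖dp N b t‖ ^ 2) = fun t => c * (f T t * ‖dp N b t‖ ^ 2) := by
    funext t; ring
  refine ⟨by rw [e]; exact i1.const_mul c, ?_⟩
  rw [e, intervalIntegral.integral_const_mul]
  calc c * ∫ t in (T + 3 * Real.log T)..(2 * T - 3 * Real.log T), f T t * ‖dp N b t‖ ^ 2
      ≤ c * (A * T * N2 N b) := mul_le_mul_of_nonneg_left i2 hc
    _ = c * A * T * N2 N b := by ring

theorem RelN.const {c : ℝ} (hc : 0 ≤ c) : RelN (fun _ _ => c) (2 * c) := by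
  refine ⟨1 / 40, by norm_num, le_rfl, ?_⟩
  filter_upwards [log_ev] with T hl
  obtain ⟨hT16, hL, hLT⟩ := hl
  refine ⟨fun t => hc, measurable_const, fun N hN b => ?_⟩
  have hN4 : (N : ℝ) ≤ T ^ (1 / 4 : ℝ) :=
    hN.trans (Real.rpow_le_rpow_of_exponent_le (by linarith) (by norm_num))
  have hc1 : Continuous fun t => c * ‖dp N b t‖ ^ 2 := by
    have := dp_cont N b
    fun_prop
  obtain ⟨i3, i4⟩ := sub_int (g := fun t => c * ‖dp N b t‖ ^ 2) (a := T + 3 * Real.log T)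
    (b := 2 * T - 3 * Real.log T) (c := T) (d := 2 * T)
    (fun t => mul_nonneg hc (sq_nonneg ‖dp N b t‖))
    (by linarith) (by linarith) (by linarith) (by linarith) (hc1.intervalIntegrable _ _)
  refine ⟨i3, i4.trans ?_⟩
  rw [intervalIntegral.integral_const_mul]
  have := (Pool.Agent.Q84.UM.t_MVL T hT16 N hN4 b).2
  calc c * ∫ t in T..(2 * T), ‖dp N b t‖ ^ 2 ≤ c * (2 * T * N2 N b) := mul_le_mul_of_nonneg_left this hc
    _ = 2 * c * T * N2 N b := by ring

theorem RelN.sum {ι : Type*} (s : Finset ι) {f : ι → ℝ → ℝ → ℝ} {A : ι → ℝ}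
    (h : ∀ i ∈ s, RelN (f i) (A i)) : RelN (fun T t => ∑ i ∈ s, f i T t) (∑ i ∈ s, A i) := by
  classical
  induction s using Finset.induction_on with
  | empty =>
    have := RelN.const (c := 0) le_rfl
    simpa using this
  | insert i s hi ih =>
    have h1 := h i (Finset.mem_insert_self i s)
    have h2 := ih fun j hj => h j (Finset.mem_insert_of_mem hj)
    have := h1.add h2
    simpa [Finset.sum_insert hi] using this

theorem RelN.mono {f : ℝ → ℝ → ℝ} {A B : ℝ} (hf : RelN f A) (h : A ≤ B) : RelN f B := by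
  obtain ⟨θ, h1, h2, h3⟩ := hf
  refine ⟨θ, h1, h2, ?_⟩
  filter_upwards [h3, log_ev] with T hT hl
  refine ⟨hT.1, hT.2.1, fun N hN b => ⟨(hT.2.2 N hN b).1, (hT.2.2 N hN b).2.trans ?_⟩⟩
  have := N2_nonneg N b
  have hT0 : 0 ≤ T := by linarith [hl.1]
  exact mul_le_mul_of_nonneg_right (mul_le_mul_of_nonneg_right h hT0) this

/-- Markov's inequality -/
theorem RelN.markov {f : ℝ → ℝ → ℝ} {A : ℝ} (hf : RelN f A) {lam : ℝ} (hl : 0 < lam) :
    ∃ θ : ℝ, 0 < θ ∧ θ ≤ 1 / 40 ∧ ∀ᶠ T : ℝ in atTop, MeasurableSet {t : ℝ | lam < f T t} ∧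
      ∀ N : ℕ, (N : ℝ) ≤ T ^ θ → ∀ b : ℕ → ℂ,
        ∫ t in {t : ℝ | lam < f T t} ∩ Icc (T + 3 * Real.log T) (2 * T - 3 * Real.log T), ‖dp N b t‖ ^ 2 ≤
          A / lam * T * N2 N b := by
  obtain ⟨θ, h1, h2, h3⟩ := hf
  refine ⟨θ, h1, h2, ?_⟩
  filter_upwards [h3, log_ev] with T hT hlog
  obtain ⟨hT16, hL, hLT⟩ := hlog
  obtain ⟨f0, fm, hf⟩ := hT
  have hm : MeasurableSet {t : ℝ | lam < f T t} := measurableSet_lt measurable_const fm
  refine ⟨hm, fun N hN b => ?_⟩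
  obtain ⟨i1, i2⟩ := hf N hN b
  have hab : T + 3 * Real.log T ≤ 2 * T - 3 * Real.log T := by linarith
  rw [intervalIntegral.integral_of_le hab, ← integral_Icc_eq_integral_Ioc] at i2
  rw [intervalIntegrable_iff_integrableOn_Icc_of_le hab] at i1
  have hc : Continuous fun t => ‖dp N b t‖ ^ 2 := by
    have := dp_cont N b
    fun_prop
  have key : lam * ∫ t in {t : ℝ | lam < f T t} ∩ Icc (T + 3 * Real.log T) (2 * T - 3 * Real.log T), ‖dp N b t‖ ^ 2 ≤
      ∫ t in Icc (T + 3 * Real.log T) (2 * T - 3 * Real.log T), f T t * ‖dp N b t‖ ^ 2 := by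
    rw [← integral_const_mul]
    calc ∫ t in {t : ℝ | lam < f T t} ∩ Icc (T + 3 * Real.log T) (2 * T - 3 * Real.log T), lam * ‖dp N b t‖ ^ 2
        ≤ ∫ t in {t : ℝ | lam < f T t} ∩ Icc (T + 3 * Real.log T) (2 * T - 3 * Real.log T), f T t * ‖dp N b t‖ ^ 2 := by
          apply setIntegral_mono_on
          · exact ((hc.const_smul lam).integrableOn_Icc.mono_set inter_subset_right)
          · exact i1.mono_set inter_subset_right
          · exact hm.inter measurableSet_Icc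
          · intro t ht
            exact mul_le_mul_of_nonneg_right (le_of_lt ht.1) (sq_nonneg _)
      _ ≤ _ := by
          apply setIntegral_mono_set i1
          · exact Eventually.of_forall fun t => mul_nonneg (f0 t) (sq_nonneg _)
          · exact Eventually.of_forall fun t ht => ht.2
  have : lam * ∫ t in {t : ℝ | lam < f T t} ∩ Icc (T + 3 * Real.log T) (2 * T - 3 * Real.log T), ‖dp N b t‖ ^ 2 ≤
      A * T * N2 N b := key.trans i2
  calc ∫ t in {t : ℝ | lam < f T t} ∩ Icc (T + 3 * Real.log T) (2 * T - 3 * Real.log T), ‖dp N b t‖ ^ 2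
      = (lam * ∫ t in {t : ℝ | lam < f T t} ∩ Icc (T + 3 * Real.log T) (2 * T - 3 * Real.log T), ‖dp N b t‖ ^ 2) / lam := by
        field_simp
    _ ≤ (A * T * N2 N b) / lam := by gcongr
    _ = A / lam * T * N2 N b := by ring

end Pool.Agent.H444.MH
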