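import Pool.Graph.R_pool_sql_team_seeded_3997aac3.Q97.UM.Base8

set_option autoImplicit false

/-!
Project MH (helper444): THE MICROSCOPIC HADAMARD PRODUCT OF ZETA, without any hypothesis and relative to every Dirichlet polynomial.

THEOREM. For `K, ε > 0` there are `M`, `θ > 0`, `T₀` such that for `T ≥ T₀` there is a set `E ⊆ [T, 2T]` with
`∫_E |B|² ≤ ε ∫_T^{2T} |B|²` for ALL Dirichlet polynomials `B(t) = ∑_{n ≤ T^θ} b_n n^{-1/2-it}`, such that for `t ∈ [T, 2T] \ E`: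
`ζ(1/2+it) ≠ 0` and `|ζ(1/2 + i(t + u / log T)) / ζ(1/2+it) - e^{-iu/2} ∏_{|Re ξ_ρ| ≤ M} (1 - u/ξ_ρ)| ≤ ε` for all complex `|u| ≤ K`,
`ξ_ρ = log T ((ρ - 1/2)/i - t)` (complex numbers).

Notation: `L = log T`, `zt t = ζ(1/2+it)`, `dp N b t = ∑_{n ≤ N} b_n n^{-1/2-it}`, `N2 N b = ∑_{n ≤ N} |b_n|²/n`,
`ZD T` = the nontrivial zeros with `T/16 < γ ≤ 16T` (a Finset), `mz s` = multiplicity, `SS δ T t = ∑ m e^{2δL|β-1/2|}/(1+L|γ-t|)²`,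
`SL T t = ∑ m log⁺(1/(L|s-1/2-it|))` (all from the library project UM, files `R_pool_sql_team_seeded_3997aac3/Q97/UM/Stm*.lean`; the theorems
`b_XXX : S_XXX` are in `Base*.lean`, this file imports `Base8`).
-/

namespace Pool.Agent.H444.MH

open Filter Topology MeasureTheory Complex
open Pool.Agent.Q97.UM

noncomputable section

/-- `f` is nonnegative, measurable and has mean at most `A` relative to every Dirichlet polynomial (wide interval) -/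
def RelW (f : ℝ → ℝ → ℝ) (A : ℝ) : Prop := ∃ θ : ℝ, 0 < θ ∧ θ ≤ 1 / 40 ∧ ∀ᶠ T : ℝ in atTop,
  (∀ t, 0 ≤ f T t) ∧ Measurable (f T) ∧ ∀ N : ℕ, (N : ℝ) ≤ T ^ θ → ∀ b : ℕ → ℂ,
    IntervalIntegrable (fun t => f T t * ‖dp N b t‖ ^ 2) volume (T + 2 * Real.log T) (2 * T - 2 * Real.log T) ∧
    ∫ t in (T + 2 * Real.log T)..(2 * T - 2 * Real.log T), f T t * ‖dp N b t‖ ^ 2 ≤ A * T * N2 N b

/-- the same on a narrower interval -/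
def RelN (f : ℝ → ℝ → ℝ) (A : ℝ) : Prop := ∃ θ : ℝ, 0 < θ ∧ θ ≤ 1 / 40 ∧ ∀ᶠ T : ℝ in atTop,
  (∀ t, 0 ≤ f T t) ∧ Measurable (f T) ∧ ∀ N : ℕ, (N : ℝ) ≤ T ^ θ → ∀ b : ℕ → ℂ,
    IntervalIntegrable (fun t => f T t * ‖dp N b t‖ ^ 2) volume (T + 3 * Real.log T) (2 * T - 3 * Real.log T) ∧
    ∫ t in (T + 3 * Real.log T)..(2 * T - 3 * Real.log T), f T t * ‖dp N b t‖ ^ 2 ≤ A * T * N2 N b

open Classical in
/-- number of zeros (with multiplicity) with `L |γ - t| ≤ r` -/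
def cnt (T r t : ℝ) : ℝ := ∑ s ∈ (ZD T).filter (fun s => |s.im - t| ≤ r / Real.log T), (mz s : ℝ)

open Classical in
/-- the sum of `1 / (L (γ - t))²` over the zeros with `M / L < |γ - t| ≤ 1` -/
def far (M T t : ℝ) : ℝ := ∑ s ∈ (ZD T).filter (fun s => |s.im - t| ≤ 1 ∧ M / Real.log T < |s.im - t|),
  (mz s : ℝ) * (1 / (Real.log T * (s.im - t)) ^ 2)

/-- LLN: the number of zeros in a window of radius `H / L`. PROOF. Fix `θ₁ c C₂` with `EDB θ₁ c C₂`, `c ≤ 1` (from `b_TAIL`, `b_ED`), `K = max K₀ 2`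
(`K₀` from `b_ERR`), `δ = min (c/100) (1/16)`, `C` from `S_OMEX` for this `K, δ` (it does not depend on `H`), `C₄` from `b_ERR`. For `H ≥ 1` take `w`
with `OmW δ H C K w`, and `g, R, lam` from `S_MTW` (with `ε = 1`; only the third conclusion of `b_DET` is used). For large `T` and `t` in the wide interval:
`|Nw T (H/L) t - Re (Zt w T 0 t)| ≤ 100 C² ErrS δ H K T t` (b_DET); `|Zt w T 0 t - (QL(0) - PL(0) - conj PL(0))| ≤ D/L` (b_EFL, `u = 0`);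
`|QL w L 0 - qh w 0| ≤ D/L` (S_QLF), `|π qh w 0 - H| ≤ 4C²`, `|π I2 w - H| ≤ 4C⁴` (S_QH). Also `cnt T H t = Nw T (H/L) t` for these `t` (the zeros
with `|γ - t| ≤ H/L` are in `ZT T` and in `ZD T`; use `H370.mem_Zf`). So `|cnt - H/π| ≤ 100 C² ErrS + 2 |PL(0)| + 2`-ish `+ 4C²`, and
`2|PL| ≤ √H + |PL|²/√H`. Means relative to `|B|²`: `ErrS` by b_ERR (`≤ C₄`), `|PL|²` by b_PU (`u = 0`, `x = T + 2L`, `y = 2T - 2L`, `ε = 1`): at most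
`(C₀(δ + √θ) I2 + 1) ≤ C' H`, and `∫ |B|² ≤ 2T N2` (`Pool.Agent.Q84.UM.t_MVL : S_MVL`). `cnt` is measurable (finite sum of indicators of closed
sets); integrability: bounded times continuous (`cnt ≤ ∑ mz` over `ZD T`; `dp` is continuous, S_DPM part 3). -/
def S_LLN : Prop := ∃ C : ℝ, 1 ≤ C ∧ ∀ H : ℝ, 1 ≤ H → RelW (fun T t => |cnt T H t - H / Real.pi|) (C * Real.sqrt H)

/-- FAR: PROOF. `y = L(γ - t)`, `|y| > M ≥ 1`, `|y| ≤ L`. Let `j = round y`; then `|j| ≥ 1`, `|j| ≥ M - 1/2 ≥ M/2`, `|j| ≤ L + 1`,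
`1/y² ≤ (9/4)/j²` (as `|j| ≤ |y| + 1/2 ≤ 3/2 |y|`), and the zero contributes at least `m/(1 + 1/2)² = 4m/9` to `SS δ T (t + j/L)`
(`|L(γ - (t + j/L))| = |y - j| ≤ 1/2`). So `far M T t ≤ 6 ∑_{j ∈ ℤ, max(1, M-1/2) ≤ |j| ≤ L+1} j⁻² SS δ T (t + j/L)`. For each `j` substitute
`t' = t + j/L`: `dp N b (t' - j/L)` is again a Dirichlet polynomial with the same `N2` (`Pool.Agent.Q84.UM.t_DPM : S_DPM`, part 2), and the interval of `t'`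
is contained in `[T/4, 8T]`; so b_STM (with `m = 1`, `b_TAIL`) bounds the mean by `C'` for every `j`, and `∑ j⁻² ≤ C/M`. `δ > 0` is any small number
allowed by b_STM. Measurable/integrable as in LLN (`far` is a finite sum of bounded measurable functions: on the indicator set
`(L(γ-t))² > M²`). -/
def S_FAR : Prop := ∃ C : ℝ, 0 ≤ C ∧ ∀ M : ℝ, 1 ≤ M → RelW (far M) (C / M)

/-- ONE: PROOF. b_TAIL, b_STM (`m = 1`, gives `SSB (θ/2) δ 1 C'`), b_SNG (`m = 1`): their intervals `[T/4, 8T]`, `[T/2, 4T]` contain the wide interval,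
and the integrands are nonnegative. `SS δ T` is continuous, `SL T` measurable. -/
def S_ONE : Prop := ∃ δ C : ℝ, 0 < δ ∧ 0 ≤ C ∧ RelW (fun T t => SS δ T t + SL T t) C

/-- INC: increments of `log |ζ|`. PROOF. `X = ⌊T^δ⌋`, `h = Y/L`. b_THP (`m = 1`): `|log|zt t| - EP X t|` has mean `≤ C_δ` relative to `|B|²` on
`[T/2, 4T]`; substitute `t' = t + h` for `|log|zt (t+h)| - EP X (t+h)|` (`dp N b (t' - h)` is a Dirichlet polynomial with the same `N2`: S_DPM part 2).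
`EP X (t+h) - EP X t = ∑_{p ≤ X} (f(z_p p^{-ih}) - f(z_p))`, `f(z) = -log|1-z|`, `z_p = p^{-1/2-it}`; `g(z) = -log(1-z) - z` has `|g'(z)| = |z/(1-z)| ≤ 4|z|`
for `|z| ≤ 1/√2`, so `|EP X (t+h) - EP X t - Re (dp X α t)| ≤ ∑_{p ≤ X} 4 p^{-1/2} · p^{-1/2} |p^{-ih} - 1| ≤ 4|h| ∑_{p ≤ X} log p/p ≤ C |h| (1 + log X) ≤
C |Y| δ + C|Y|/L`, where `α_p = p^{-ih} - 1` (primes `p ≤ X`, `0` elsewhere), `|α_p| ≤ |h| log p ≤ A log p / log X`, `A = |h| log X ≤ |Y| δ`.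
`dp X α · dp N b = dp (XN) (cv α b)` (S_DPM part 1, after restricting `b` to `[1,N]`), S_MVL on `[T, 2T]` (`XN ≤ T^{1/4}`) and the theorem `t_PRM : S_PRM` give
`∫_T^{2T} |dp X α|² |B|² ≤ 2T C₀ A² (1 + log N/log X) N2 ≤ 6 C₀ A² T N2` if `θ ≤ δ/2`-ish (`log X ≥ (δ/2) L`). Then `|a| ≤ A₁ + |a|²/A₁` with `A₁ = δ|Y|`
(`Y = 0` is trivial). The constant `C` must not depend on `δ`; `C'` may. (`Real.log 0 = 0`; only almost all `t` matter. `S_MER`/`b`-theorems or the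
files behind `S_PR`, `S_PRM` contain `∑_{p ≤ x} log p/p ≤ log x + C`.) -/
def S_INC : Prop := ∃ C δ₀ : ℝ, 0 ≤ C ∧ 0 < δ₀ ∧ ∀ δ : ℝ, 0 < δ → δ ≤ δ₀ → ∃ C' : ℝ, 0 ≤ C' ∧ ∀ Y : ℝ,
  RelN (fun T t => |Real.log ‖zt (t + Y / Real.log T)‖ - Real.log ‖zt t‖|) (C' + C * δ * |Y|)

open Classical in
/-- LEX: local factorisation of zeta, to second order. PROOF. As `Pool.Agent.Q149.UM.t_LOC : S_LOC` (file Q149/UM/LOC*.lean): `H370.Loc.extract`,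
`SP.LocAux.extract_bound` on the discs with centre `2 + it` and radii `1.6 < 1.7 < 1.8 < 1.9` (`H370.Loc.ball_data`) give
`ζ(s) = ∏_ρ (s - ρ)^m · g(s)` over the zeros in the disc of radius `1.8`, `O(L)` many, `g ≠ 0`, `|g'/g| ≤ C L` in the disc of radius `1.6`. With
`s₀ = 1/2 + it`, `|w| ≤ 1/100` the points `s₀ + w` are in the disc of radius `1.55`, so `|(g'/g)'| ≤ C' L` there (Cauchy), and
`g(s₀+w)/g(s₀) = exp(w g'/g(s₀) + e)`, `|e| ≤ C' L |w|²`. The zeros in exactly one of the two sets (disc of radius `1.8`; `|γ - t| ≤ 1`, `0 < β < 1`) are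
`O(L)` many and have distance at least `1/10` from `s₀`; for them `(1 + w/(s₀-ρ))^{±m} = exp(± m w/(s₀-ρ) + O(m |w|²))`; they change `a` and `e` only. The
formula for `ζ'` is the derivative at `w = 0` (or from `logDeriv` of the product). -/
def S_LEX : Prop := ∃ C : ℝ, 0 ≤ C ∧ ∀ᶠ T : ℝ in atTop, ∀ t : ℝ, T ≤ t → t ≤ 2 * T → zt t ≠ 0 → ∃ a : ℂ,
  deriv riemannZeta (1 / 2 + t * I) = zt t * (a + ∑ s ∈ (ZD T).filter (fun s => |s.im - t| ≤ 1), (mz s : ℂ) / ((1 / 2 + t * I) - s)) ∧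
  ∀ w : ℂ, ‖w‖ ≤ 1 / 100 → ∃ e : ℂ, ‖e‖ ≤ C * Real.log T * ‖w‖ ^ 2 ∧
    riemannZeta (1 / 2 + t * I + w) = zt t * (∏ s ∈ (ZD T).filter (fun s => |s.im - t| ≤ 1), (1 + w / ((1 / 2 + t * I) - s)) ^ mz s) *
      cexp (a * w + e)

/-- `log max(|y|, 1)` -/
def ell (y : ℝ) : ℝ := Real.log (max |y| 1)

open Classical in
/-- CMB: PROOF. `n₀(r) = ∑_{|y| ≤ r} m`, `n_Y(r) = ∑_{|y-Y| ≤ r} m` (both nondecreasing in `r`). `∑_{|y| ≤ M} m (log M - ell y) = ∫_1^M n₀(r) dr/r`,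
`∑_{|y-Y| ≤ M} m (log M - ell (y-Y)) = ∫_1^M n_Y(r) dr/r` (finite sums of `∫_{max(|y|,1)}^M dr/r`). Hence the sum is
`∫_1^M (n₀ - n_Y) dr/r + [∑_{|y-Y| ≤ M} - ∑_{|y| ≤ M}] m (log M - ell (y-Y))`. The sets `{|y-Y| ≤ M}` and `{|y| ≤ M}` differ only by points with
`M - Y ≤ |y| ≤ M + Y`, `M - Y ≤ |y - Y| ≤ M + Y`, where `|log M - ell (y-Y)| ≤ -log(1 - Y/M) ≤ 2Y/M`; their number is at most
`n₀(M+Y) - n₀(M-Y-1) ≤ |n₀(M+Y) - (M+Y)/π| + |n₀(M-Y-1) - (M-Y-1)/π| + (2Y+1)/π`. For `r ∈ [j, j+1]`: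
`|n(r) - r/π| ≤ |n(j) - j/π| + |n(j+1) - (j+1)/π| + 1/π` and `∫_j^{j+1} dr/r ≤ 1/j`. -/
def S_CMB : Prop := ∀ (ι : Type) (S : Finset ι) (m y : ι → ℝ) (Y M : ℕ), (∀ s ∈ S, 0 ≤ m s) → 1 ≤ Y → 2 * Y + 1 ≤ M →
  |∑ s ∈ S.filter (fun s => |y s| ≤ M), m s * (ell (y s - Y) - ell (y s))| ≤
    2 * (Y : ℝ) / M * (|(∑ s ∈ S.filter (fun s => |y s| ≤ (M + Y : ℕ)), m s) - (M + Y : ℕ) / Real.pi| +
      |(∑ s ∈ S.filter (fun s => |y s| ≤ (M - Y - 1 : ℕ)), m s) - (M - Y - 1 : ℕ) / Real.pi| + (2 * Y + 1) / Real.pi) +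
    ∑ j ∈ Finset.Ico 1 M, (1 / (j : ℝ)) *
      (|(∑ s ∈ S.filter (fun s => |y s| ≤ j), m s) - j / Real.pi| +
        |(∑ s ∈ S.filter (fun s => |y s| ≤ (j + 1 : ℕ)), m s) - (j + 1 : ℕ) / Real.pi| +
        |(∑ s ∈ S.filter (fun s => |y s - Y| ≤ j), m s) - j / Real.pi| +
        |(∑ s ∈ S.filter (fun s => |y s - Y| ≤ (j + 1 : ℕ)), m s) - (j + 1 : ℕ) / Real.pi| + 2 / Real.pi)

/-- CPL: the size of a complex number and its real part. PROOF. `|y| ≥ 1`: `0 ≤ ½ log(1 + v²/y²) ≤ v²/(2y²) ≤ 2v²/(1+|y|)²`, `v² ≤ e^{2δ|v|}/(2δ²)`.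
`|y| < 1`, `y² + v² ≥ 1`: `0 ≤ ½ log(y²+v²) ≤ log(1+|v|) ≤ |v| ≤ 4|v|/(1+|y|)²`, `|v| ≤ e^{2δ|v|}/(2δ)`. `y² + v² < 1`: the left side is the last term. -/
def S_CPL : Prop := ∀ δ : ℝ, 0 < δ → ∃ C : ℝ, 0 ≤ C ∧ ∀ y v : ℝ, (y ≠ 0 ∨ v ≠ 0) →
  |Real.log (Real.sqrt (y ^ 2 + v ^ 2)) - ell y| ≤ C * (Real.exp (2 * δ * |v|) / (1 + |y|) ^ 2) +
    max 0 (Real.log (1 / Real.sqrt (y ^ 2 + v ^ 2)))

end

end Pool.Agent.H444.MH
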